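import Pool.Agent.NH29.GH.Stm
import Pool.Agent.NH29.GN.Abs

/-!
# GH-ABSD: tuples of points of large height give a bad tuple
-/

set_option autoImplicit false

namespace Pool.Agent.NH29.GH

open MvPolynomial Module Filter
open Pool.Agent.NH29.GN (Idx Mon fv val UPr HFam Sm SmlStm LdStm)
open Pool.Agent.NH29.GN.ABS (mk_eq_zero mk_ne_zero mk_ne_zero' mk_div mk_zpow mk_prod_zpow kap
  kap_apply mk_eval mk_val mk_fv algebraic_map)
open Pool.Agent.NH8.GD (pv qn)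

namespace ABSD

section

variable {I : Type} {𝒰 : Ultrafilter I} {E : I → Type} [∀ i, Field (E i)]
  {k : Type} [Field k] [∀ i, Algebra k (E i)]

theorem mk_pv {Ω : Type} [Field Ω] (ι : UPr 𝒰 E →+* Ω) {M q δ : ℕ} {d : Fin q → ℕ}
    {K' : Type} [Field K'] [Algebra K' Ω] (t : ∀ i, Idx M d → E i) (t' : Idx M d → K')
    (ht : ∀ s, algebraMap K' Ω (t' s) = ι (UPr.mk 𝒰 E (fun i => t i s)))
    (x : ∀ i, Fin δ → Fin (M + 1) → E i) (b : Fin q) :
    pv t' (fun l a => ι (UPr.mk 𝒰 E (fun i => x i l a))) b =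
      ι (UPr.mk 𝒰 E (fun i => pv (t i) (x i) b)) := by
  have : (fun i => pv (t i) (x i) b) = ∏ l, fun i => fv (t i) (x i l) b := by
    funext i
    simp [pv, Finset.prod_apply]
  rw [this, map_prod, map_prod]
  unfold pv
  exact Finset.prod_congr rfl fun l _ => mk_fv ι t t' ht (fun i => x i l) b

theorem mk_qn {Ω : Type} [Field Ω] (ι : UPr 𝒰 E →+* Ω) {M q δ : ℕ} {d : Fin q → ℕ}
    {K' : Type} [Field K'] [Algebra K' Ω] (t : ∀ i, Idx M d → E i) (t' : Idx M d → K')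
    (ht : ∀ s, algebraMap K' Ω (t' s) = ι (UPr.mk 𝒰 E (fun i => t i s)))
    (x : ∀ i, Fin δ → Fin (M + 1) → E i) (b₀ b : Fin q) :
    qn t' (fun l a => ι (UPr.mk 𝒰 E (fun i => x i l a))) b₀ b =
      ι (UPr.mk 𝒰 E (fun i => qn (t i) (x i) b₀ b)) := by
  have e : (fun i => qn (t i) (x i) b₀ b) = fun i =>
      (fun i => pv (t i) (x i) b ^ d b₀) i / (fun i => pv (t i) (x i) b₀ ^ d b) i := by
    funext i
    simp [qn]
  rw [e, ← mk_div, map_div₀]
  unfold qn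
  simp only [mk_pv ι t t' ht]
  rw [← map_pow, ← map_pow, ← map_pow, ← map_pow]
  rfl

theorem main (T : HFam 𝒰 E) {M q δ : ℕ}
    (V : Set (MvPolynomial (Fin (M + 1)) k)) {d : Fin q → ℕ}
    (t : ∀ i, Idx M d → E i) (x : ∀ i, Fin δ → Fin (M + 1) → E i) (Q : MvPolynomial (Idx M d) k)
    (hQ : ∀ i, aeval (t i) Q ≠ 0) (hV : ∀ i l, ∀ H ∈ V, aeval (x i l) H = 0)
    (hoff : ∀ i l b, fv (t i) (x i l) b ≠ 0)
    (hx : ∀ i l, x i l ≠ 0)
    (hbig : ∃ l, ∀ a₀, (∀ᶠ i in (𝒰 : Filter I), x i l a₀ ≠ 0) →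
      ∃ a, ¬ Sm T fun i => x i l a / x i l a₀)
    (hue : ∀ b₀, ∀ S : Finset (Fin q → ℤ), S.Nonempty → ∀ c : (Fin q → ℤ) → ∀ i, E i,
      (∀ m ∈ S, Sm T (c m)) → (∀ m ∈ S, ∀ᶠ i in (𝒰 : Filter I), c m i ≠ 0) →
      (∀ᶠ i in (𝒰 : Filter I), ∑ m ∈ S, c m i * ∏ b, qn (t i) (x i) b₀ b ^ m b = 0) →
      ∃ m ∈ S, ∃ m' ∈ S, m ≠ m' ∧ Sm T fun i =>
        (∏ b, qn (t i) (x i) b₀ b ^ m b) / ∏ b, qn (t i) (x i) b₀ b ^ m' b)
    (A₀ : Subfield (UPr 𝒰 E)) (hA₀ : ∀ f : ∀ i, E i, UPr.mk 𝒰 E f ∈ A₀ ↔ Sm T f)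
    (hcl : ∀ y : UPr 𝒰 E, IsAlgebraic A₀ y → y ∈ A₀) (hL : LdStm)
    {Ω : Type} [Field Ω] [CharZero Ω] (ι : UPr 𝒰 E →+* Ω)
    {K' : Type} [Field K'] [Algebra K' Ω] [Algebra k K']
    (hK' : ∀ a : K', IsAlgebraic (A₀.map ι) (algebraMap K' Ω a))
    (hK'2 : ∀ y : Ω, y ∈ A₀.map ι → ∃ a : K', algebraMap K' Ω a = y)
    (hk : ∀ a : k, algebraMap K' Ω (algebraMap k K' a) = ι (kap 𝒰 E k a))
    (t' : Idx M d → K')
    (ht : ∀ s, algebraMap K' Ω (t' s) = ι (UPr.mk 𝒰 E (fun i => t i s))) :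
    aeval t' Q ≠ 0 ∧ Pool.Agent.NH8.GD.Bad k K' Ω V t'
      (fun l a => ι (UPr.mk 𝒰 E (fun i => x i l a))) := by
  have hcomp : (algebraMap K' Ω).comp (algebraMap k K') = ι.comp (kap 𝒰 E k) := by
    ext a
    exact hk a
  refine ⟨?_, ?_, ?_, ?_, ?_, ?_⟩
  · intro h0
    have h1 := congrArg (algebraMap K' Ω) h0
    rw [map_zero, aeval_def, eval₂_comp_left] at h1
    have h2 : (algebraMap K' Ω : K' → Ω) ∘ t' = fun s => ι (UPr.mk 𝒰 E (fun i => t i s)) :=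
      funext ht
    rw [h2, hcomp, mk_eval, map_eq_zero] at h1
    exact mk_ne_zero hQ h1
  · intro l H hH
    rw [hcomp, mk_eval ι (fun i => x i l), map_eq_zero, mk_eq_zero]
    exact Eventually.of_forall fun i => hV i l H hH
  · intro l b
    rw [mk_fv ι t t' ht (fun i => x i l), Ne, map_eq_zero]
    exact mk_ne_zero fun i => hoff i l b
  · intro l h0
    have h1 : ∀ a, ∀ᶠ i in (𝒰 : Filter I), x i l a = 0 := by
      intro a
      have h2 : ι (UPr.mk 𝒰 E (fun i => x i l a)) = 0 := congrFun h0 a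
      rw [map_eq_zero] at h2
      exact mk_eq_zero.1 h2
    obtain ⟨i, hi⟩ := (eventually_all.mpr h1).exists
    exact hx i l (funext hi)
  · intro hall
    obtain ⟨l, hl⟩ := hbig
    obtain ⟨c, y, hxy⟩ := hall l
    have hxy' : ∀ a, ι (UPr.mk 𝒰 E (fun i => x i l a)) = c * algebraMap K' Ω (y a) := congrFun hxy
    obtain ⟨a₀, ha₀⟩ : ∃ a₀, ∀ᶠ i in (𝒰 : Filter I), x i l a₀ ≠ 0 := by
      by_contra hcon
      push Not at hcon
      obtain ⟨i, hi⟩ := (eventually_all.mpr hcon).exists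
      exact hx i l (funext hi)
    obtain ⟨a, ha⟩ := hl a₀ ha₀
    apply ha
    rw [← hA₀, ← mk_div]
    apply hcl
    apply algebraic_map ι
    have h0 : ι (UPr.mk 𝒰 E (fun i => x i l a₀)) ≠ 0 := by
      rw [Ne, map_eq_zero]
      exact mk_ne_zero'.2 ha₀
    have hc0 : c ≠ 0 := fun h => h0 (by rw [hxy', h, zero_mul])
    have hy0 : algebraMap K' Ω (y a₀) ≠ 0 := fun h => h0 (by rw [hxy', h, mul_zero])
    rw [map_div₀, hxy', hxy']
    have h3 : c * algebraMap K' Ω (y a) / (c * algebraMap K' Ω (y a₀)) =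
        algebraMap K' Ω (y a / y a₀) := by
      rw [map_div₀]
      field_simp
    rw [h3]
    exact hK' _
  · intro b₀ S c hsum hnp
    have hq : ∀ m : Fin q → ℤ,
        ∏ b, qn t' (fun l a => ι (UPr.mk 𝒰 E (fun i => x i l a))) b₀ b ^ m b =
        ι (UPr.mk 𝒰 E (fun i => ∏ b, qn (t i) (x i) b₀ b ^ m b)) := by
      intro m
      rw [← mk_prod_zpow (fun b i => qn (t i) (x i) b₀ b), map_prod]
      refine Finset.prod_congr rfl fun b _ => ?_
      rw [mk_qn ι t t' ht, map_zpow₀]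
    have hP0 : ∀ (m : Fin q → ℤ) i, ∏ b, qn (t i) (x i) b₀ b ^ m b ≠ 0 := by
      intro m i
      refine Finset.prod_ne_zero_iff.2 fun b _ => zpow_ne_zero _ ?_
      unfold qn
      have hp : ∀ b, pv (t i) (x i) b ≠ 0 := fun b =>
        Finset.prod_ne_zero_iff.2 fun l _ => hoff i l b
      exact div_ne_zero (pow_ne_zero _ (hp b)) (pow_ne_zero _ (hp b₀))
    simp only [hq] at hsum hnp
    have key := hL Ω (A₀.map ι) ι.fieldRange ?_ ?_ S
      (fun m => ι (UPr.mk 𝒰 E (fun i => ∏ b, qn (t i) (x i) b₀ b ^ m.1 b))) ?_ ?_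
      (fun m => algebraMap K' Ω (c m.1)) (fun m => hK' _) ?_
    · intro m hm
      have := key ⟨m, hm⟩
      simpa using this
    · rintro _ ⟨y, -, rfl⟩
      exact ⟨y, rfl⟩
    · rintro _ ⟨y, rfl⟩ hy
      exact ⟨y, hcl y (algebraic_map ι A₀ y hy), rfl⟩
    · intro m
      exact ⟨_, rfl⟩
    · intro e he hesum
      by_contra hcon
      push Not at hcon
      -- extend `e` to all the exponents
      classical
      have hγ : ∀ m : S, ∃ γ : ∀ i, E i, Sm T γ ∧ ι (UPr.mk 𝒰 E γ) = e m := by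
        intro m
        obtain ⟨y, hy, hy2⟩ := he m
        obtain ⟨γ, rfl⟩ := UPr.mk_surj 𝒰 E y
        exact ⟨γ, (hA₀ γ).1 hy, hy2⟩
      choose γ hγ1 hγ2 using hγ
      let g : (Fin q → ℤ) → ∀ i, E i := fun m => if h : m ∈ S then γ ⟨m, h⟩ else 0
      have hg : ∀ m : S, g m.1 = γ m := fun m => by simp [g]
      let S₀ : Finset (Fin q → ℤ) := S.filter fun m => UPr.mk 𝒰 E (g m) ≠ 0
      have hS₀ : S₀.Nonempty := by
        obtain ⟨m, hm⟩ := hcon
        refine ⟨m.1, Finset.mem_filter.2 ⟨m.2, ?_⟩⟩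
        rw [hg]
        intro h
        rw [← hγ2, h, map_zero] at hm
        exact hm rfl
      have hsum0 : ∑ m ∈ S₀, UPr.mk 𝒰 E (g m) *
          UPr.mk 𝒰 E (fun i => ∏ b, qn (t i) (x i) b₀ b ^ m b) = 0 := by
        have h1 : ∑ m ∈ S₀, UPr.mk 𝒰 E (g m) *
            UPr.mk 𝒰 E (fun i => ∏ b, qn (t i) (x i) b₀ b ^ m b) =
            ∑ m ∈ S, UPr.mk 𝒰 E (g m) *
            UPr.mk 𝒰 E (fun i => ∏ b, qn (t i) (x i) b₀ b ^ m b) := by
          refine Finset.sum_filter_of_ne fun m _ hm h0 => hm ?_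
          rw [h0, zero_mul]
        rw [h1, ← Finset.sum_coe_sort S (fun m => UPr.mk 𝒰 E (g m) *
            UPr.mk 𝒰 E (fun i => ∏ b, qn (t i) (x i) b₀ b ^ m b)), ← map_eq_zero ι, map_sum,
          ← hesum]
        refine Finset.sum_congr rfl fun m _ => ?_
        rw [map_mul, hg, hγ2]
      have hue1 : ∀ m ∈ S₀, Sm T (g m) := by
        intro m hm
        have hmS := (Finset.mem_filter.1 hm).1
        have : g m = γ ⟨m, hmS⟩ := hg ⟨m, hmS⟩
        rw [this]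
        exact hγ1 _
      have hue2 : ∀ m ∈ S₀, ∀ᶠ i in (𝒰 : Filter I), g m i ≠ 0 := by
        intro m hm
        exact mk_ne_zero'.1 (Finset.mem_filter.1 hm).2
      have hue3 : ∀ᶠ i in (𝒰 : Filter I),
          ∑ m ∈ S₀, g m i * ∏ b, qn (t i) (x i) b₀ b ^ m b = 0 := by
        rw [← mk_eq_zero, ← hsum0]
        have : (fun i => ∑ m ∈ S₀, g m i * ∏ b, qn (t i) (x i) b₀ b ^ m b) =
            ∑ m ∈ S₀, g m * (fun i => ∏ b, qn (t i) (x i) b₀ b ^ m b) := by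
          funext i
          rw [Finset.sum_apply]
          rfl
        rw [this, map_sum]
        refine Finset.sum_congr rfl fun m _ => ?_
        rw [map_mul]
      obtain ⟨m, hm, m', hm', hne, hsm⟩ := hue b₀ S₀ hS₀ g hue1 hue2 hue3
      rw [← hA₀] at hsm
      obtain ⟨a, ha⟩ := hK'2 (ι _) ⟨_, hsm, rfl⟩
      refine hnp m (Finset.mem_filter.1 hm).1 m' (Finset.mem_filter.1 hm').1 hne a ?_
      rw [ha, ← map_mul, ← map_mul]
      congr 2
      funext i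
      rw [Pi.mul_apply, div_mul_cancel₀ _ (hP0 m' i)]
    · rw [← hsum, ← Finset.sum_coe_sort S (fun m => algebraMap K' Ω (c m) *
        ι (UPr.mk 𝒰 E (fun i => ∏ b, qn (t i) (x i) b₀ b ^ m b)))]

end

end ABSD

open ABSD in
theorem absd (hS : SmlStm) (hL : LdStm) : AbsdStm := by
  intro k _ _ I 𝒰 E _ _ T M q δ V d t x Q hcst hsm hQ hV hoff hx hbig hue
  obtain ⟨A₀, hA₀, hcl⟩ := hS I 𝒰 E T
  have : CharZero (UPr 𝒰 E) := charZero_of_injective_ringHom (kap 𝒰 E k).injective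
  let ι : UPr 𝒰 E →+* AlgebraicClosure (UPr 𝒰 E) := algebraMap _ _
  have : CharZero (AlgebraicClosure (UPr 𝒰 E)) := charZero_of_injective_ringHom ι.injective
  have hk : ∀ a : k, ι (kap 𝒰 E k a) ∈ A₀.map ι := fun a => ⟨_, (hA₀ _).2 (hcst a), rfl⟩
  let κ : k →+* A₀.map ι :=
    { toFun := fun a => ⟨ι (kap 𝒰 E k a), hk a⟩
      map_one' := by ext; simp
      map_mul' := fun a b => by ext; simp
      map_zero' := by ext; simp
      map_add' := fun a b => by ext; simp }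
  let F := algebraicClosure (A₀.map ι) (AlgebraicClosure (UPr 𝒰 E))
  let _ : Algebra k F := ((algebraMap (A₀.map ι) F).comp κ).toAlgebra
  have hac : IsAlgClosed F :=
    (algebraicClosure.isAlgClosure (A₀.map ι) (AlgebraicClosure (UPr 𝒰 E))).isAlgClosed
  let t' : Idx M d → F := fun s => algebraMap (A₀.map ι) F
    ⟨ι (UPr.mk 𝒰 E (fun i => t i s)), ⟨_, (hA₀ _).2 (hsm s), rfl⟩⟩
  refine ⟨F, AlgebraicClosure (UPr 𝒰 E), inferInstance, inferInstance, inferInstance,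
    inferInstance, hac, t', _, main T V t x Q hQ hV hoff hx hbig hue A₀ hA₀ hcl hL ι
      ?_ ?_ ?_ t' ?_⟩
  · intro a
    exact mem_algebraicClosure_iff.1 a.2
  · intro y hy
    exact ⟨algebraMap (A₀.map ι) F ⟨y, hy⟩, rfl⟩
  · intro a
    rfl
  · intro s
    rfl

end Pool.Agent.NH29.GH
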