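import Pool.Agent.NH29.GH.Stm
import Pool.Agent.NH29.GN.Cnt
import Pool.Agent.NH29.GN.Sua

/-!
# Project GH, CNP and SUP: counting functions and units outside of `P` (helper31)
-/

set_option autoImplicit false

namespace Pool.Agent.NH29.GH

open MvPolynomial Module Filter Height NumberField
open Pool.Agent.NH29.GN (Idx Mon fv val)

namespace CnpPf

/-- the finite set of the finite places over the primes in `P` -/
theorem finS (E : Type) [Field E] [NumberField E] (P : Finset ℕ) (hP : ∀ p ∈ P, p ≠ 0) :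
    ∃ S : Finset (FinitePlace E), ∀ w : FinitePlace E, w ∉ S ↔ ∀ p ∈ P, w (p : E) = 1 := by
  classical
  have hfin : {w : FinitePlace E | ∃ p ∈ P, w (p : E) ≠ 1}.Finite := by
    have h1 : (⋃ p ∈ P, {w : FinitePlace E | w (p : E) ≠ 1}).Finite := by
      refine Set.Finite.biUnion P.finite_toSet fun p hp => ?_
      have hp0 : (p : E) ≠ 0 := Nat.cast_ne_zero.2 (hP p hp)
      exact FinitePlace.hasFiniteMulSupport hp0
    refine h1.subset ?_
    rintro w ⟨p, hp, hw⟩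
    exact Set.mem_biUnion hp hw
  refine ⟨hfin.toFinset, fun w => ?_⟩
  rw [Set.Finite.mem_toFinset]
  constructor
  · intro h p hp
    by_contra hw
    exact h ⟨p, hp, hw⟩
  · rintro h ⟨p, hp, hw⟩
    exact hw (h p hp)

theorem fs {E : Type} [Field E] [NumberField E] {P : Finset ℕ} {S : Finset (FinitePlace E)}
    (h : ∀ w : FinitePlace E, w ∉ S ↔ ∀ p ∈ P, w (p : E) = 1) (g : FinitePlace E → ℝ) :
    ∑ᶠ w : {w : FinitePlace E // w ∉ S}, g w.1 = ∑ᶠ w : Off P E, g w.1 :=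
  finsum_comp_equiv (Equiv.subtypeEquivRight h) (f := fun w : Off P E => g w.1)

theorem cnt_eq {E : Type} [Field E] [NumberField E] {P : Finset ℕ} {S : Finset (FinitePlace E)}
    (h : ∀ w : FinitePlace E, w ∉ S ↔ ∀ p ∈ P, w (p : E) = 1) {M e : ℕ} (t : Mon M e → E)
    (x : Fin (M + 1) → E) : Pool.Agent.NH29.GN.cnt S t x = cntP P t x :=
  fs h (fun w => Real.log ((⨆ β, w (t β)) * (⨆ a, w (x a)) ^ e / w (∑ β, t β * val x β.1)))

end CnpPf

open CnpPf

theorem cnp : CnpStm := by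
  intro E _ _ P hP M q d t x b b₀ hb hb0
  obtain ⟨S, hS⟩ := finS E P hP
  have h := Pool.Agent.NH29.GN.cntP E S M q d t x b b₀ hb hb0
  rw [cnt_eq hS, cnt_eq hS, fs hS (fun w =>
    |Real.log (w (fv (K := E) (L := E) t x b ^ d b₀ / fv (K := E) (L := E) t x b₀ ^ d b))|)] at h
  exact h

theorem sup : SupStm := by
  intro κ _ _ P hP
  obtain ⟨S, hS⟩ := finS κ P hP
  obtain ⟨Γ, A, h1, h2, h3⟩ := Pool.Agent.NH29.GN.sua κ S
  refine ⟨Γ, A, h1, h2, fun w => ?_⟩
  obtain ⟨γ, hγ, h4⟩ := h3 w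
  rw [fs hS (fun v => |Real.log (v (w : κ))|)] at h4
  exact ⟨γ, hγ, h4⟩

end Pool.Agent.NH29.GH
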