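import Pool.Agent.NH29.GH.Stm

/-! # Project GH, EMB: a number field with all conjugates, norm and trace (helper15) -/

set_option autoImplicit false

open Module NumberField

namespace Pool.Agent.NH29.GH.Emb

/-- the degree of a splitting field -/
theorem finrank_split {κ : Type} [Field κ] (p : Polynomial κ) (hp : p.Separable) :
    finrank κ p.SplittingField ≤ p.natDegree ^ p.natDegree := by
  classical
  rw [← Polynomial.Gal.card_of_separable hp]
  have : Fact (Polynomial.map (algebraMap κ p.SplittingField) p).Splits :=
    ⟨Polynomial.SplittingField.splits p⟩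
  have h1 := Nat.card_le_card_of_injective _
    (Polynomial.Gal.galActionHom_injective p p.SplittingField)
  refine h1.trans ?_
  rw [Nat.card_eq_fintype_card, Fintype.card_perm]
  have h2 : Fintype.card (p.rootSet p.SplittingField) ≤ p.natDegree := by
    rw [Polynomial.card_rootSet_eq_natDegree hp (Polynomial.SplittingField.splits p)]
  exact (Nat.factorial_le h2).trans (Nat.factorial_le_pow _)

theorem exists_field (κ E : Type) [Field κ] [NumberField κ] [Field E] [NumberField E]
    [Algebra κ E] : ∃ (L : Type) (_ : Field L) (_ : NumberField L) (_ : Algebra κ L),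
      finrank κ L ≤ finrank κ E ^ finrank κ E ∧ ∃ e : Fin (finrank κ E) → (E →ₐ[κ] L),
        ∀ a : E, algebraMap κ L (Algebra.norm κ a) = ∏ l, e l a ∧
          algebraMap κ L (Algebra.trace κ E a) = ∑ l, e l a := by
  classical
  have : FiniteDimensional κ E := Module.Finite.of_restrictScalars_finite ℚ κ E
  let pb := Field.powerBasisOfFiniteOfSeparable κ E
  let p := minpoly κ pb.gen
  have hsep : p.Separable := Algebra.IsSeparable.isSeparable κ pb.gen
  have hspl : (Polynomial.map (algebraMap κ p.SplittingField) p).Splits :=
    Polynomial.SplittingField.splits p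
  have hdeg : p.natDegree = finrank κ E := by
    rw [PowerBasis.finrank pb]
    exact pb.natDegree_minpoly
  have : FiniteDimensional κ p.SplittingField := inferInstance
  refine ⟨p.SplittingField, inferInstance, NumberField.of_module_finite κ p.SplittingField,
    inferInstance, ?_, ?_⟩
  · have := finrank_split p hsep
    rwa [hdeg] at this
  · have hcard : Fintype.card (E →ₐ[κ] p.SplittingField) = finrank κ E := by
      rw [PowerBasis.finrank pb]
      have h1 := AlgHom.card_of_powerBasis (L := p.SplittingField) pb hsep hspl
      rw [← h1, ← Nat.card_eq_fintype_card]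
      exact (@Nat.card_eq_fintype_card _ (PowerBasis.AlgHom.fintype pb))
    let Ω := AlgebraicClosure p.SplittingField
    let ι : p.SplittingField →ₐ[κ] Ω := IsScalarTower.toAlgHom κ p.SplittingField Ω
    have hι : Function.Injective (fun x => ι x) := ι.injective
    have hbij : Function.Bijective (fun τ : E →ₐ[κ] p.SplittingField => ι.comp τ) := by
      rw [Fintype.bijective_iff_injective_and_card]
      refine ⟨?_, by rw [hcard, AlgHom.card κ E Ω]⟩
      intro τ τ' h
      apply AlgHom.ext
      intro x
      have h1 := DFunLike.congr_fun h x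
      exact hι h1
    let e := (Fintype.equivFinOfCardEq hcard).symm
    refine ⟨fun l => e l, fun a => ⟨?_, ?_⟩⟩
    · apply hι
      show ι _ = ι _
      have h1 := Algebra.norm_eq_prod_embeddings κ Ω a
      have h2 : ι (algebraMap κ p.SplittingField (Algebra.norm κ a)) =
          algebraMap κ Ω (Algebra.norm κ a) := ι.commutes _
      rw [h2, h1, map_prod, e.prod_comp (fun τ : E →ₐ[κ] p.SplittingField => ι (τ a))]
      exact (hbij.prod_comp (fun σ : E →ₐ[κ] Ω => σ a)).symm
    · apply hι
      show ι _ = ι _
      have h1 := trace_eq_sum_embeddings (K := κ) Ω (x := a)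
      have h2 : ι (algebraMap κ p.SplittingField (Algebra.trace κ E a)) =
          algebraMap κ Ω (Algebra.trace κ E a) := ι.commutes _
      rw [h2, h1, map_sum, e.sum_comp (fun τ : E →ₐ[κ] p.SplittingField => ι (τ a))]
      exact (hbij.sum_comp (fun σ : E →ₐ[κ] Ω => σ a)).symm

end Pool.Agent.NH29.GH.Emb

namespace Pool.Agent.NH29.GH

theorem emb : EmbStm := fun κ E _ _ _ _ _ => Emb.exists_field κ E

end Pool.Agent.NH29.GH
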