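import Pool.Agent.NH29.GH.Stm
import Pool.Agent.Helper259.HtExt

/-!
# EXT: the normalized height does not change under embeddings
-/

set_option autoImplicit false

namespace Pool.Agent.NH29.GH

open Module Height NumberField

theorem Ext.htOne {E L : Type} [Field E] [NumberField E] [Field L] [NumberField L] [Algebra E L]
    (x : E) : logHeight₁ (algebraMap E L x) = (finrank E L : ℝ) * logHeight₁ x := by
  have h := Pool.Agent.Helper259.HtExt.logHeight_ext (L := L) ![x, 1]
  have h2 : (fun i => algebraMap E L (![x, 1] i)) = ![algebraMap E L x, 1] := by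
    funext i
    fin_cases i <;> simp
  rw [h2] at h
  rw [logHeight₁_eq_logHeight, h, ← logHeight₁_eq_logHeight]

theorem Ext.deg (E L : Type) [Field E] [NumberField E] [Field L] [NumberField L] [Algebra E L] :
    (finrank ℚ L : ℝ) = (finrank E L : ℝ) * finrank ℚ E := by
  have h := Module.finrank_mul_finrank ℚ E L
  rw [← h]
  push_cast
  ring

theorem Ext.pos (E L : Type) [Field E] [NumberField E] [Field L] [NumberField L] [Algebra E L] :
    (0 : ℝ) < (finrank E L : ℝ) := by
  have h := Module.finrank_mul_finrank ℚ E L
  have h1 : 0 < finrank ℚ L := Module.finrank_pos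
  rw [← h] at h1
  rcases Nat.eq_zero_or_pos (finrank E L) with h3 | h3
  · rw [h3, mul_zero] at h1
    exact absurd h1 (lt_irrefl _)
  · exact_mod_cast h3

theorem ext : ExtStm := by
  intro E L _ _ _ _ σ
  let _ : Algebra E L := σ.toAlgebra
  have hE : (0 : ℝ) < finrank ℚ E := by exact_mod_cast (Module.finrank_pos : 0 < finrank ℚ E)
  have hd := Ext.deg E L
  have hp := Ext.pos E L
  refine ⟨fun a => ?_, fun M x => ?_⟩
  · have h : logHeight₁ (σ a) = (finrank E L : ℝ) * logHeight₁ a := Ext.htOne (L := L) a
    unfold nh
    rw [h, hd]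
    field_simp
  · have h : logHeight (fun i => σ (x i)) = (finrank E L : ℝ) * logHeight x :=
      Pool.Agent.Helper259.HtExt.logHeight_ext (L := L) x
    unfold nH
    rw [h, hd]
    field_simp

end Pool.Agent.NH29.GH
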