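import Pool.Agent.NH29.GH.Stm
import Pool.Agent.NH29.GN.Hn

/-!
# Project GH: the normalized height is a height function, with uniform constants
-/

set_option autoImplicit false

namespace Pool.Agent.NH29.GH

open Module Height NumberField

/-- HNU -/
theorem hnu : HnuStm := by
  have hl2 : (0 : ℝ) ≤ Real.log 2 := Real.log_nonneg (by norm_num)
  refine ⟨fun n ↦ if n = 0 then Real.log 2 else Real.log n, ?_, ?_⟩
  · intro n
    dsimp only
    split_ifs with h
    · exact hl2
    · exact Real.log_natCast_nonneg _
  · intro L _ _
    have hN : (0 : ℝ) < (finrank ℚ L : ℝ) := by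
      exact_mod_cast (finrank_pos : 0 < finrank ℚ L)
    have hN' : (finrank ℚ L : ℝ) ≠ 0 := hN.ne'
    have hW : (totalWeight L : ℝ) = (finrank ℚ L : ℝ) := by
      exact_mod_cast NumberField.totalWeight_eq_finrank L
    refine ⟨?_, ?_, ?_, ?_, ?_, ?_⟩
    · intro a
      unfold nh
      dsimp only
      rw [logHeight₁_neg, if_pos rfl]
      linarith
    · intro a
      unfold nh
      dsimp only
      rw [logHeight₁_inv, if_pos rfl]
      linarith
    · intro a b
      unfold nh
      dsimp only
      rw [if_pos rfl, ← add_div, div_add' _ _ _ hN']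
      refine div_le_div_of_nonneg_right ?_ hN.le
      have := logHeight₁_add_le a b
      rw [hW] at this
      linarith
    · intro a b
      unfold nh
      dsimp only
      rw [if_pos rfl, ← add_div, div_add' _ _ _ hN']
      refine div_le_div_of_nonneg_right ?_ hN.le
      have := logHeight₁_mul_le a b
      have := mul_nonneg hl2 hN.le
      linarith
    · intro n g a h
      rcases Nat.eq_zero_or_pos n with rfl | hn
      · simp at h
      · have hn' : n ≠ 0 := hn.ne'
        unfold nh
        dsimp only
        rw [if_neg hn', ← Finset.sum_div, div_add' _ _ _ hN']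
        refine div_le_div_of_nonneg_right ?_ hN.le
        have h1 := GN.HnPf.mul_root hn' g a h
        have h2 := Real.log_le_log (mulHeight₁_pos g) h1
        have h3 : (∏ j, mulHeight₁ (a j)) ≠ 0 :=
          Finset.prod_ne_zero_iff.2 fun j _ ↦ mulHeight₁_ne_zero _
        have h4 : ((n : ℝ) ^ totalWeight L) ≠ 0 := pow_ne_zero _ (Nat.cast_ne_zero.2 hn')
        rw [Real.log_mul h4 h3, Real.log_pow, Real.log_prod fun j _ ↦ mulHeight₁_ne_zero _,
          hW] at h2
        simp only [logHeight₁_eq_log_mulHeight₁]
        linarith
    · intro M x a₀ hx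
      unfold nH nh
      rw [← Finset.sum_div]
      refine div_le_div_of_nonneg_right ?_ hN.le
      obtain ⟨c, -, -, -, -, -, -, h⟩ := GN.hn L
      exact h M x a₀ hx

end Pool.Agent.NH29.GH
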