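import Pool.Agent.NH29.GH.Stm
import Pool.Agent.NH29.GN.Stb2

/-!
# Project GH, STBD: ultraproduct with algebraically independent coefficients (tuples of points,
varying fields)
-/

set_option autoImplicit false

namespace Pool.Agent.NH29.GH

open MvPolynomial Module Filter Pool.Agent.NH29.GN Pool.Agent.NH29.GN.Stb2 Pool.Agent.NH8.GD

theorem stbd : StbdStm := by
  classical
  intro k _ _ M q δ V d hyp
  -- the index set
  let I : Type := {Q : MvPolynomial (Idx M d) k // Q ≠ 0}
  let A : I → Set I := fun P => {Q : I | P.1 ∣ Q.1}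
  have : Nonempty I := ⟨⟨1, one_ne_zero⟩⟩
  have hdir : Directed (· ≥ ·) (fun P : I => (𝓟 (A P) : Filter I)) := by
    intro P P'
    refine ⟨⟨P.1 * P'.1, mul_ne_zero P.2 P'.2⟩, ?_, ?_⟩
    · show 𝓟 _ ≤ 𝓟 _
      rw [principal_mono]
      intro Q hQ
      exact (Dvd.intro _ rfl).trans hQ
    · show 𝓟 _ ≤ 𝓟 _
      rw [principal_mono]
      intro Q hQ
      exact (Dvd.intro_left _ rfl).trans hQ
  have : NeBot (⨅ P : I, (𝓟 (A P) : Filter I)) := by
    apply iInf_neBot_of_directed' hdir
    intro P
    rw [principal_neBot_iff]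
    exact ⟨P, dvd_refl _⟩
  let U : Ultrafilter I := Ultrafilter.of (⨅ P : I, (𝓟 (A P) : Filter I))
  have hU : ∀ P : I, ∀ᶠ Q in (U : Filter I), P.1 ∣ Q.1 := by
    intro P
    have h1 : A P ∈ (⨅ P : I, (𝓟 (A P) : Filter I)) :=
      mem_iInf_of_mem P (mem_principal_self _)
    exact (Ultrafilter.of_le (⨅ P : I, (𝓟 (A P) : Filter I))) h1
  choose K L iK iL iA iB iC t x htx using fun Q : I => hyp Q.1 Q.2
  have ht : ∀ Q : I, aeval (t Q) Q.1 ≠ 0 := fun Q => (htx Q).1
  have hx : ∀ Q : I, Bad k (K Q) (L Q) V (t Q) (x Q) := fun Q => (htx Q).2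
  let _ : Algebra k (UPr U K) :=
    ((pr U K).comp (algebraMap k (∀ i, K i))).toAlgebra
  let _ : Algebra (UPr U K) (UPr U L) := (gm U K L).toAlgebra
  have hal1 : ∀ a : k, algebraMap k (UPr U K) a =
      pr U K (fun i => algebraMap k (K i) a) := fun _ => rfl
  have hal2 : ∀ f : ∀ i, K i, algebraMap (UPr U K) (UPr U L) (pr U K f) =
      pr U L (fun i => algebraMap (K i) (L i) (f i)) := fun _ => rfl
  set t' : Idx M d → UPr U K := fun j => pr U K (fun Q => t Q j) with ht'
  set x' : Fin δ → Fin (M + 1) → UPr U L := fun l j => pr U L (fun Q => x Q l j)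
    with hx'
  have hfv : ∀ l i, fv t' (x' l) i = pr U L (fun Q => fv (t Q) (x Q l) i) := by
    intro l i
    unfold fv
    rw [pr_sum]
    apply Finset.sum_congr rfl
    intro β _
    rw [pr_mul, ← hal2]
    congr 1
    unfold val
    rw [pr_prod]
    apply Finset.prod_congr rfl
    intro j _
    rw [pr_pow]
  have hpv : ∀ b, pv t' x' b = pr U L (fun Q => pv (t Q) (x Q) b) := by
    intro b
    unfold pv
    rw [pr_prod]
    exact Finset.prod_congr rfl fun l _ => hfv l b
  have hquo : ∀ b₀ b, qn t' x' b₀ b = pr U L (fun Q => qn (t Q) (x Q) b₀ b) := by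
    intro b₀ b
    unfold qn
    rw [pr_div, pr_pow, pr_pow, hpv, hpv]
  refine ⟨UPr U K, UPr U L, inferInstance, inferInstance,
    inferInstance, inferInstance, closed U K, t', x', ?_, ?_⟩
  · rw [algebraicIndependent_iff]
    intro P hP
    by_contra hne
    have h1 : ∀ P : MvPolynomial (Idx M d) k, aeval t' P = pr U K (fun Q => aeval (t Q) P) := by
      intro P
      induction P using MvPolynomial.induction_on with
      | C a =>
        simp only [algHom_C]
        exact hal1 a
      | add p p' h h' =>
        simp only [map_add]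
        rw [h, h', ← map_add]
        rfl
      | mul_X p n h =>
        simp only [map_mul, aeval_X]
        rw [h, pr_mul]
    rw [h1, pr_eq_zero] at hP
    obtain ⟨Q, hQ1, hQ2⟩ := (hP.and (hU ⟨P, hne⟩)).exists
    obtain ⟨R, hR⟩ := hQ2
    apply ht Q
    have : Q.1 = P * R := hR
    rw [this, map_mul, hQ1, zero_mul]
  · constructor
    · intro l H hH
      have h2 : eval₂ ((algebraMap (UPr U K) (UPr U L)).comp
          (algebraMap k (UPr U K))) (x' l) H =
          pr U L (fun Q => eval₂ ((algebraMap (K Q) (L Q)).comp (algebraMap k (K Q))) (x Q l) H) := by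
        clear hH
        induction H using MvPolynomial.induction_on with
        | C a =>
          simp only [eval₂_C]
          rfl
        | add p p' h h' =>
          simp only [eval₂_add]
          rw [h, h', ← map_add]
          rfl
        | mul_X p n h =>
          simp only [eval₂_mul, eval₂_X]
          rw [h, pr_mul]
      rw [h2, pr_eq_zero]
      exact Eventually.of_forall fun Q => (hx Q).onV l H hH
    · intro l b h0
      rw [hfv, pr_eq_zero] at h0
      obtain ⟨Q, hQ⟩ := h0.exists
      exact (hx Q).off l b hQ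
    · intro l h0
      have h1 : ∀ᶠ Q in (U : Filter I), ∀ j, x Q l j = 0 := by
        rw [eventually_all]
        intro j
        have : x' l j = 0 := congrFun h0 j
        rwa [hx', pr_eq_zero] at this
      obtain ⟨Q, hQ⟩ := h1.exists
      exact (hx Q).ne l (funext hQ)
    · intro h0
      choose c y h0 using h0
      choose γ hγ using fun l => pr_surj U (c l)
      choose η hη using fun l j => pr_surj U (y l j)
      have h1 : ∀ᶠ Q in (U : Filter I), ∀ l j, x Q l j = γ l Q * algebraMap (K Q) (L Q) (η l j Q) := by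
        rw [eventually_all]
        intro l
        rw [eventually_all]
        intro j
        have : x' l j = c l * algebraMap (UPr U K) (UPr U L) (y l j) :=
          congrFun (h0 l) j
        rw [hγ, hη l j, hal2, ← pr_mul] at this
        exact (pr_eq U).1 this
      obtain ⟨Q, hQ⟩ := h1.exists
      exact (hx Q).noncst fun l => ⟨γ l Q, fun j => η l j Q, funext (hQ l)⟩
    · intro b₀ S c hsum hnp
      choose γ hγ using fun m => pr_surj U (c m)
      have hmon : ∀ m : Fin q → ℤ, ∏ b, qn t' x' b₀ b ^ m b =
          pr U L (fun Q => ∏ b, qn (t Q) (x Q) b₀ b ^ m b) := by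
        intro m
        rw [pr_prod]
        apply Finset.prod_congr rfl
        intro b _
        rw [pr_zpow, hquo]
      have h1 : ∀ᶠ Q in (U : Filter I), ∑ m ∈ S, algebraMap (K Q) (L Q) (γ m Q) *
          ∏ b, qn (t Q) (x Q) b₀ b ^ m b = 0 := by
        rw [← pr_eq_zero, pr_sum, ← hsum]
        apply Finset.sum_congr rfl
        intro m _
        rw [pr_mul, ← hal2, ← hγ, hmon]
      have h2 : ∀ᶠ Q in (U : Filter I), ∀ m ∈ S, ∀ m' ∈ S, m ≠ m' → ∀ a : K Q,
          ∏ b, qn (t Q) (x Q) b₀ b ^ m b ≠
            algebraMap (K Q) (L Q) a * ∏ b, qn (t Q) (x Q) b₀ b ^ m' b := by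
        rw [Filter.eventually_all_finset]
        intro m hm
        rw [Filter.eventually_all_finset]
        intro m' hm'
        by_cases hmm : m = m'
        · exact Eventually.of_forall fun Q h => absurd hmm h
        · by_contra hcon
          rw [← Ultrafilter.eventually_not] at hcon
          have h3 : ∀ᶠ Q in (U : Filter I), ∃ a : K Q, ∏ b, qn (t Q) (x Q) b₀ b ^ m b =
              algebraMap (K Q) (L Q) a * ∏ b, qn (t Q) (x Q) b₀ b ^ m' b := by
            filter_upwards [hcon] with Q hQ
            by_contra hno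
            apply hQ
            intro _ a ha
            exact hno ⟨a, ha⟩
          have h4 : ∀ Q : I, ∃ a : K Q, (∃ a : K Q, ∏ b, qn (t Q) (x Q) b₀ b ^ m b =
              algebraMap (K Q) (L Q) a * ∏ b, qn (t Q) (x Q) b₀ b ^ m' b) →
              ∏ b, qn (t Q) (x Q) b₀ b ^ m b =
              algebraMap (K Q) (L Q) a * ∏ b, qn (t Q) (x Q) b₀ b ^ m' b := by
            intro Q
            by_cases h : ∃ a : K Q, ∏ b, qn (t Q) (x Q) b₀ b ^ m b =
              algebraMap (K Q) (L Q) a * ∏ b, qn (t Q) (x Q) b₀ b ^ m' b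
            · exact ⟨h.choose, fun _ => h.choose_spec⟩
            · exact ⟨0, fun h' => absurd h' h⟩
          choose a ha using h4
          refine hnp m hm m' hm' hmm (pr U K a) ?_
          rw [hmon, hmon, hal2, ← pr_mul, pr_eq]
          filter_upwards [h3] with Q hQ
          exact ha Q hQ
      have h5 : ∀ᶠ Q in (U : Filter I), ∀ m ∈ S, γ m Q = 0 := by
        filter_upwards [h1, h2] with Q hQ1 hQ2
        exact (hx Q).ind b₀ S (fun m => γ m Q) hQ1 hQ2
      intro m hm
      rw [hγ, pr_eq_zero]
      filter_upwards [h5] with Q hQ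
      exact hQ m hm

end Pool.Agent.NH29.GH
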