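import Pool.Agent.NH29.GH.Stm

/-!
# TRC: the height of the normalized trace
-/

set_option autoImplicit false

namespace Pool.Agent.NH29.GH

open Module Height NumberField

theorem Trc.nh_nonneg {L : Type} [Field L] [NumberField L] (a : L) : 0 ≤ nh a := by
  unfold nh
  exact div_nonneg (zero_le_logHeight₁ a) (by positivity)

theorem Trc.nh_zero {L : Type} [Field L] [NumberField L] : nh (0 : L) = 0 := by
  unfold nh
  rw [logHeight₁_zero, zero_div]

theorem Trc.nh_one {L : Type} [Field L] [NumberField L] : nh (1 : L) = 0 := by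
  unfold nh
  rw [logHeight₁_one, zero_div]

theorem trc : HnuStm → ExtStm → EmbStm → TrcStm := by
  rintro ⟨c, hc, hN⟩ hE hM R
  have hc0 := hc 0
  refine ⟨R * (1 + c 0) + (R * c 0 + c 0) + c 0, by positivity, ?_⟩
  intro κ L _ _ _ _ _ hR a
  obtain ⟨hneg, hinv, hadd, hmul, -, -⟩ := hN κ
  -- sums
  have hsum : ∀ (F : Type) [Field F] [NumberField F] (n : ℕ) (f : Fin n → F) (B : ℝ),
      (∀ i, nh (f i) ≤ B) → nh (∑ i, f i) ≤ n * (B + c 0) := by
    intro F _ _ n
    obtain ⟨-, -, haddF, -, -, -⟩ := hN F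
    induction n with
    | zero =>
      intro f B _
      rw [Finset.univ_eq_empty, Finset.sum_empty, Trc.nh_zero]
      simp
    | succ n ih =>
      intro f B hB
      rw [Fin.sum_univ_succ]
      have h1 := haddF (f 0) (∑ i : Fin n, f i.succ)
      have h2 := ih (fun i => f i.succ) B (fun i => hB _)
      have h3 := hB 0
      push_cast
      linarith
  set n := finrank κ L with hn
  obtain ⟨N, _, _, _, -, e, he⟩ := hM κ L
  have htr : nh (Algebra.trace κ L a) ≤ n * (nh a + c 0) := by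
    have h1 : nh (algebraMap κ N (Algebra.trace κ L a)) = nh (Algebra.trace κ L a) :=
      (hE κ N (algebraMap κ N)).1 _
    rw [← h1, (he a).2]
    refine hsum N _ _ _ fun i => ?_
    exact ((hE L N (e i : L →+* N)).1 a).le
  have hnat : nh ((n : κ)) ≤ n * c 0 := by
    have h1 := hsum κ n (fun _ => (1 : κ)) 0 (fun _ => by rw [Trc.nh_one])
    simp only [Finset.sum_const, Finset.card_univ, Fintype.card_fin, nsmul_eq_mul, mul_one,
      zero_add] at h1
    exact h1
  have hinv' := hinv (n : κ)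
  have hmul' := hmul ((n : κ)⁻¹) (Algebra.trace κ L a)
  have hRr : (n : ℝ) ≤ R := by exact_mod_cast hR
  have h0 := Trc.nh_nonneg a
  have hn0 : (0 : ℝ) ≤ n := Nat.cast_nonneg n
  have hR0 : (0 : ℝ) ≤ R := Nat.cast_nonneg R
  have h5 : nh ((n : κ)⁻¹ * Algebra.trace κ L a) ≤ n * c 0 + c 0 + n * (nh a + c 0) + c 0 := by
    linarith
  refine h5.trans ?_
  have h6 : (n : ℝ) * c 0 ≤ R * c 0 := mul_le_mul_of_nonneg_right hRr hc0
  have h7 : (n : ℝ) * nh a ≤ R * nh a := mul_le_mul_of_nonneg_right hRr h0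
  have h8 : 0 ≤ (R * (1 + c 0) + (R * c 0 + c 0) + c 0) * nh a - R * nh a := by
    have : (R * (1 + c 0) + (R * c 0 + c 0) + c 0) * nh a - R * nh a =
        (R * c 0 + (R * c 0 + c 0) + c 0) * nh a := by ring
    rw [this]
    positivity
  nlinarith

end Pool.Agent.NH29.GH
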