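import Pool.Agent.NH29.GH.Hi
import Pool.Agent.NH29.GH.Ext
import Pool.Agent.NH29.GH.Stbd
import Pool.Agent.NH29.GH.Hnu
import Pool.Agent.NH29.GH.Cnp
import Pool.Agent.NH29.GH.Absd
import Pool.Agent.NH29.GH.Trc
import Pool.Agent.NH29.GH.Emb
import Pool.Agent.NH29.GN.Prj
import Pool.Agent.NH29.GN.Scl
import Pool.Agent.NH29.GN.Hi3
import Pool.Agent.NH8.GD.Stc
import Pool.Agent.NH8.GD.Rk

/-!
# Project GH: the height inequality for points of bounded degree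
-/

set_option autoImplicit false

namespace Pool.Agent.NH29.GH

open MvPolynomial Module Filter Height NumberField
open Pool.Agent.NH29.GN (Idx Mon fv val NoZero sml ld mue mov movs movd gal hn prj scl der alg rel lin)
open Pool.Agent.NH8.GD (stc rk)

theorem cntP_scale {E : Type} [Field E] [NumberField E] (P : Finset ℕ) (M e : ℕ)
    (t : Mon M e → E) (x : Fin (M + 1) → E) (μ : E) (hμ : μ ≠ 0) :
    cntP P (fun β => μ * t β) x = cntP P t x := by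
  unfold cntP
  refine finsum_congr fun v => ?_
  have h0 : v.1 μ ≠ 0 := by
    rw [Ne, map_eq_zero]
    exact hμ
  have h1 : (⨆ β, v.1 (μ * t β)) = v.1 μ * ⨆ β, v.1 (t β) := by
    rw [Real.mul_iSup_of_nonneg (apply_nonneg v.1 μ)]
    simp only [map_mul]
  have h2 : v.1 (∑ β, μ * t β * val x β.1) = v.1 μ * v.1 (∑ β, t β * val x β.1) := by
    rw [← map_mul, Finset.mul_sum]
    simp only [mul_assoc]
  rw [h1, h2, mul_assoc, mul_div_mul_left _ _ h0]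

theorem fv_scaleE {κ E : Type} [Field κ] [Field E] [Algebra κ E] {M q : ℕ} {d : Fin q → ℕ}
    (t : Idx M d → κ) (c : Fin q → κ) (x : Fin (M + 1) → E) (b : Fin q) :
    fv (K := κ) (L := E) (fun s : Idx M d => c s.1 * t s) x b = algebraMap κ E (c b) * fv t x b := by
  unfold fv
  rw [Finset.mul_sum]
  refine Finset.sum_congr rfl fun β _ => ?_
  rw [map_mul, mul_assoc]

/-- the height inequality for points of degree at most `r` -/
theorem gh (nrm : NrmStm) {k : Type} [Field k] [CharZero k] {M n q r : ℕ}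
    {V : Set (MvPolynomial (Fin (M + 1)) k)} (hV : ∀ H ∈ V, ∃ e, H.IsHomogeneous e)
    {ℓ : Fin (n + 1) → MvPolynomial (Fin (M + 1)) k} (hℓ : ∀ j, (ℓ j).IsHomogeneous 1)
    (hN : NoZero V ℓ) {d : Fin q → ℕ} (hd : ∀ i, 1 ≤ d i) (hq : n * r + 2 ≤ q)
    (hnum : ∀ b, r * (q - 1) < (q - n * r - 1) * (d b + 2 - r)) :
    ∃ Φ : MvPolynomial (Idx M d) k, Φ ≠ 0 ∧
      ∀ (κ : Type) [Field κ] [NumberField κ] [Algebra k κ] (P : Finset ℕ), (∀ p ∈ P, p ≠ 0) →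
      ∃ A : ℝ, ∀ t : Idx M d → κ, aeval t Φ ≠ 0 → ∀ (E : Type) [Field E] [NumberField E]
        [Algebra κ E], finrank κ E ≤ r → ∀ x : Fin (M + 1) → E, PtD V t x →
        nH x ≤ A * (1 + ∑ b, nH (fun β : Mon M (d b) => t ⟨b, β⟩) +
          ∑ b, cntP P (fun β => algebraMap κ E (t ⟨b, β⟩)) x / (finrank ℚ E : ℝ)) := by
  classical
  -- the points of degree `m`
  have hone : ∀ m : ℕ, ∃ Φ : MvPolynomial (Idx M d) k, Φ ≠ 0 ∧ (1 ≤ m → m ≤ r →
      ∀ (κ : Type) [Field κ] [NumberField κ] [Algebra k κ] (P : Finset ℕ), (∀ p ∈ P, p ≠ 0) →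
      ∃ A : ℝ, ∀ t : Idx M d → κ, aeval t Φ ≠ 0 → ∀ (E : Type) [Field E] [NumberField E]
        [Algebra κ E], finrank κ E = m → ∀ x : Fin (M + 1) → E, PtD V t x →
        nH x ≤ A * rhsD P t x) := by
    intro m
    by_cases hm : 1 ≤ m ∧ m ≤ r
    · have h1 : n * m ≤ n * r := Nat.mul_le_mul_left n hm.2
      obtain ⟨Φ, h2, h3⟩ := gh_one hnu ext emb (trc hnu ext emb) nrm cnp sup (absd sml ld) stbd
        (mue (mov (movs gal) movd) hn) (stc der alg rel lin rk) hV hℓ hN hd hm.1 (by omega)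
        (fun b => by
          refine (Nat.mul_le_mul_right (q - 1) hm.2).trans_lt ((hnum b).trans_le ?_)
          exact Nat.mul_le_mul (by omega) (by omega))
      exact ⟨Φ, h2, fun _ _ => h3⟩
    · exact ⟨1, one_ne_zero, fun h1 h2 => absurd ⟨h1, h2⟩ hm⟩
  choose Φm hΦm0 hΦm using hone
  obtain ⟨Φ, D, h2, h3⟩ := prj k M q d (∏ m ∈ Finset.range (r + 1), Φm m)
    (Finset.prod_ne_zero_iff.2 fun m _ => hΦm0 m)
  refine ⟨Φ, h2, fun κ _ _ _ P hP => ?_⟩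
  have hA : ∀ m : ℕ, ∃ A : ℝ, 1 ≤ m → m ≤ r → ∀ t : Idx M d → κ, aeval t (Φm m) ≠ 0 →
      ∀ (E : Type) [Field E] [NumberField E]
        [Algebra κ E], finrank κ E = m → ∀ x : Fin (M + 1) → E, PtD V t x →
        nH x ≤ A * rhsD P t x := by
    intro m
    by_cases hm : 1 ≤ m ∧ m ≤ r
    · obtain ⟨A, hA⟩ := hΦm m hm.1 hm.2 κ P hP
      exact ⟨A, fun _ _ => hA⟩
    · exact ⟨0, fun h1 h2 => absurd ⟨h1, h2⟩ hm⟩
  choose A hA using hA
  obtain ⟨c, hc0, hc1, -⟩ := scl κ D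
  obtain ⟨N, hNdef⟩ : ∃ N : ℝ, N = ((Fintype.card (Idx M d) : ℕ) : ℝ) := ⟨_, rfl⟩
  have hN0 : 0 ≤ N := by
    rw [hNdef]
    exact Nat.cast_nonneg _
  refine ⟨(∑ m ∈ Finset.range (r + 1), |A m|) * (1 + N * (1 + c)), ?_⟩
  intro t ht E _ _ _ hEr x hx
  obtain ⟨ht0, ht1⟩ := h3 κ t ht
  obtain ⟨l, hl, hl0⟩ := ht1 (fun b => (t ⟨b, Pool.Agent.NH29.GN.Hi.mon0 M (d b)⟩)⁻¹) fun b =>
    inv_ne_zero (ht0 _)
  obtain ⟨e, he⟩ : ∃ e : Fin q → κ,
      e = fun b => (l b : κ) * (t ⟨b, Pool.Agent.NH29.GN.Hi.mon0 M (d b)⟩)⁻¹ := ⟨_, rfl⟩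
  have hlne : ∀ b, (l b : κ) ≠ 0 := fun b => by
    have := (hl b).1
    exact_mod_cast (by omega : l b ≠ 0)
  have he0 : ∀ b, e b ≠ 0 := fun b => by
    rw [he]
    exact mul_ne_zero (hlne b) (inv_ne_zero (ht0 _))
  have heE : ∀ b, algebraMap κ E (e b) ≠ 0 := fun b => by
    rw [Ne, map_eq_zero]
    exact he0 b
  obtain ⟨t', ht'⟩ : ∃ t' : Idx M d → κ, t' = fun s => e s.1 * t s := ⟨_, rfl⟩
  have hm1 : 1 ≤ finrank κ E := finrank_pos
  have hmr : finrank κ E ∈ Finset.range (r + 1) := Finset.mem_range.2 (by omega)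
  have hΦ0 : aeval t' (Φm (finrank κ E)) ≠ 0 := by
    have h4 : aeval t' (∏ m ∈ Finset.range (r + 1), Φm m) ≠ 0 := by
      rw [ht', he]
      exact hl0
    rw [map_prod, Finset.prod_ne_zero_iff] at h4
    exact h4 _ hmr
  have hfv : ∀ b, fv (K := κ) (L := E) t' x b = algebraMap κ E (e b) * fv t x b := fun b => by
    rw [ht']
    exact fv_scaleE t e x b
  have hx' : PtD V t' x := by
    refine ⟨hx.ne, hx.onV, fun b => ?_⟩
    rw [hfv]
    exact mul_ne_zero (heE b) (hx.off b)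
  have hcnt : ∀ b, cntP P (fun β => algebraMap κ E (t' ⟨b, β⟩)) x =
      cntP P (fun β => algebraMap κ E (t ⟨b, β⟩)) x := by
    intro b
    rw [ht']
    simp only [map_mul]
    exact cntP_scale P M (d b) (fun β => algebraMap κ E (t ⟨b, β⟩)) x _ (heE b)
  have hY : ∀ b, 0 ≤ nH (fun β : Mon M (d b) => t ⟨b, β⟩) := fun b => nH_nonneg _
  have hYs : 0 ≤ ∑ b, nH (fun β : Mon M (d b) => t ⟨b, β⟩) :=
    Finset.sum_nonneg fun b _ => hY b
  have hκ := fin_pos κ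
  have hκ1 : (1 : ℝ) ≤ finrank ℚ κ := by
    exact_mod_cast (finrank_pos : 0 < finrank ℚ κ)
  have hh : ∀ s, nh (t' s) ≤ ∑ b, nH (fun β : Mon M (d b) => t ⟨b, β⟩) + c := by
    rintro ⟨b, β⟩
    have h4 := hc1 (Mon M (d b)) (fun β => t ⟨b, β⟩) β (Pool.Agent.NH29.GN.Hi.mon0 M (d b)) (l b)
      (hl b).1 (hl b).2 (ht0 _)
    have h5 := Finset.single_le_sum
      (f := fun b => nH (fun β : Mon M (d b) => t ⟨b, β⟩)) (fun b _ => hY b)
      (Finset.mem_univ b)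
    have h6 : nH (fun β : Mon M (d b) => t ⟨b, β⟩) ≤
      ∑ b, nH (fun β : Mon M (d b) => t ⟨b, β⟩) := h5
    have h7 : nh (t' ⟨b, β⟩) ≤ nH (fun β : Mon M (d b) => t ⟨b, β⟩) + c := by
      rw [ht', he]
      unfold nh nH
      rw [div_le_iff₀ hκ, add_mul, div_mul_cancel₀ _ hκ.ne']
      refine h4.trans ?_
      nlinarith
    linarith
  have hcn : 0 ≤ ∑ b, cntP P (fun β => algebraMap κ E (t ⟨b, β⟩)) x / (finrank ℚ E : ℝ) := by
    refine Finset.sum_nonneg fun b _ => div_nonneg ?_ (Nat.cast_nonneg _)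
    refine (cnp E P hP M q d (fun s => algebraMap κ E (t s)) x b b ?_ ?_).1 <;>
    · rw [fv_self]
      exact hx.off b
  have hsumc : ∑ b, cntP P (fun β => algebraMap κ E (t' ⟨b, β⟩)) x / (finrank ℚ E : ℝ) =
      ∑ b, cntP P (fun β => algebraMap κ E (t ⟨b, β⟩)) x / (finrank ℚ E : ℝ) :=
    Finset.sum_congr rfl fun b _ => by rw [hcnt b]
  have hr : rhsD P t' x ≤ (1 + N * (1 + c)) *
      (1 + ∑ b, nH (fun β : Mon M (d b) => t ⟨b, β⟩) +
        ∑ b, cntP P (fun β => algebraMap κ E (t ⟨b, β⟩)) x / (finrank ℚ E : ℝ)) := by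
    unfold rhsD
    rw [hsumc]
    have h7 : ∑ s, nh (t' s) ≤ N * (∑ b, nH (fun β : Mon M (d b) => t ⟨b, β⟩) + c) := by
      refine (Finset.sum_le_sum fun s _ => hh s).trans (le_of_eq ?_)
      rw [Finset.sum_const, Finset.card_univ, nsmul_eq_mul, hNdef]
    nlinarith [mul_nonneg hN0 hYs, mul_nonneg hN0 hcn, mul_nonneg hN0 hc0,
      mul_nonneg (mul_nonneg hN0 hc0) hYs, mul_nonneg (mul_nonneg hN0 hc0) hcn]
  have hr0 : 0 ≤ rhsD P t' x := by
    unfold rhsD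
    rw [hsumc]
    have h8 : 0 ≤ ∑ s, nh (t' s) := Finset.sum_nonneg fun s _ => nh_nonneg _
    linarith
  have hAm : A (finrank κ E) ≤ ∑ m ∈ Finset.range (r + 1), |A m| :=
    (le_abs_self _).trans (Finset.single_le_sum (f := fun m => |A m|)
      (fun m _ => abs_nonneg _) hmr)
  calc nH x ≤ A (finrank κ E) * rhsD P t' x := hA _ hm1 hEr t' hΦ0 E rfl x hx'
    _ ≤ (∑ m ∈ Finset.range (r + 1), |A m|) * rhsD P t' x := mul_le_mul_of_nonneg_right hAm hr0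
    _ ≤ _ := by
      rw [mul_assoc]
      exact mul_le_mul_of_nonneg_left hr (Finset.sum_nonneg fun m _ => abs_nonneg _)

end Pool.Agent.NH29.GH
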