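import Pool.Agent.NH29.GH.Stm2
import Pool.Agent.NH29.GN.Cnt

/-!
# Project GH, FMT: the first main theorem (helper63)
-/

set_option autoImplicit false

namespace Pool.Agent.NH29.GH

open MvPolynomial Module Height NumberField
open Pool.Agent.NH29.GN (Idx Mon fv val)

namespace FmtPf

variable {E : Type} [Field E] [NumberField E]

theorem sup_pos {ι : Type} [Finite ι] {z : ι → E} (hz : z ≠ 0) (f : E → ℝ)
    (hf : ∀ a, a ≠ 0 → 0 < f a) : 0 < ⨆ i, f (z i) := by
  obtain ⟨i, hi⟩ := Function.ne_iff.1 hz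
  exact (hf _ hi).trans_le (le_ciSup (Set.finite_range fun i => f (z i)).bddAbove i)

theorem sup_supp {ι : Type} [Finite ι] {z : ι → E} (hz : z ≠ 0) :
    (Function.support fun v : FinitePlace E => Real.log (⨆ i, v (z i))).Finite := by
  have hB : (⋃ i, {v : FinitePlace E | z i ≠ 0 ∧ v (z i) ≠ 1}).Finite :=
    Set.finite_iUnion fun i => Pool.Agent.NH29.GN.CntAux.fin_supp (z i)
  refine hB.subset fun v hv => ?_
  by_contra hcon
  refine hv ?_
  have h1 : ∀ i, z i ≠ 0 → v (z i) = 1 := by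
    intro i hi
    by_contra h
    exact hcon (Set.mem_iUnion.2 ⟨i, hi, h⟩)
  have hpos : 0 < ⨆ i, v (z i) := sup_pos hz (fun a => v a) fun a ha => FinitePlace.pos_iff.2 ha
  obtain ⟨i, hi⟩ := Function.ne_iff.1 hz
  haveI : Nonempty ι := ⟨i⟩
  obtain ⟨j, hj⟩ := exists_eq_ciSup_of_finite (f := fun i => v (z i))
  show Real.log (⨆ i, v (z i)) = 0
  rw [← hj] at hpos ⊢
  rw [h1 j (FinitePlace.pos_iff.1 hpos), Real.log_one]

/-- the height as a sum over all places -/
theorem height_sum {ι : Type} [Finite ι] {z : ι → E} (hz : z ≠ 0) :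
    ∑ w : InfinitePlace E, (w.mult : ℝ) * Real.log (⨆ i, w (z i)) +
      ∑ᶠ w : FinitePlace E, Real.log (⨆ i, w (z i)) = logHeight z := by
  have h1 : ∀ w : InfinitePlace E, 0 < ⨆ i, w (z i) := fun w =>
    sup_pos hz (fun a => w a) fun a ha => InfinitePlace.pos_iff.2 ha
  have h2 : ∀ w : FinitePlace E, 0 < ⨆ i, w (z i) := fun w =>
    sup_pos hz (fun a => w a) fun a ha => FinitePlace.pos_iff.2 ha
  have hH : mulHeight z ≠ 0 := mulHeight_ne_zero z
  rw [NumberField.mulHeight_eq hz] at hH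
  rw [logHeight_eq_log_mulHeight, NumberField.mulHeight_eq hz,
    Real.log_mul (left_ne_zero_of_mul hH) (right_ne_zero_of_mul hH), Real.log_finprod h2,
    Real.log_prod fun w _ => (pow_pos (h1 w) _).ne']
  congr 1
  exact Finset.sum_congr rfl fun w _ => (Real.log_pow _ _).symm

/-- the product formula -/
theorem prod_formula {y : E} (hy : y ≠ 0) :
    ∑ w : InfinitePlace E, (w.mult : ℝ) * Real.log (w y) +
      ∑ᶠ w : FinitePlace E, Real.log (w y) = 0 := by
  have h1 : ∀ w : InfinitePlace E, 0 < w y := fun w => InfinitePlace.pos_iff.2 hy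
  have h2 : ∀ w : FinitePlace E, 0 < w y := fun w => FinitePlace.pos_iff.2 hy
  have h := congrArg Real.log (NumberField.prod_abs_eq_one hy)
  have hne : (∏ w : InfinitePlace E, w y ^ w.mult) * ∏ᶠ w : FinitePlace E, w y ≠ 0 := by
    rw [NumberField.prod_abs_eq_one hy]
    exact one_ne_zero
  rw [Real.log_mul (left_ne_zero_of_mul hne) (right_ne_zero_of_mul hne), Real.log_finprod h2,
    Real.log_prod fun w _ => (pow_pos (h1 w) _).ne', Real.log_one] at h
  rw [← h]
  congr 1
  exact Finset.sum_congr rfl fun w _ => (Real.log_pow _ _).symm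

theorem split {α : Type} (g : α → ℝ) (hg : g.support.Finite) (p : α → Prop) :
    ∑ᶠ w : {w // ¬ p w}, g w.1 + ∑ᶠ w : {w // p w}, g w.1 = ∑ᶠ w, g w := by
  have h1 : ∑ᶠ w : {w // ¬ p w}, g w.1 = ∑ᶠ w ∈ {w | ¬ p w}, g w :=
    finsum_subtype_eq_finsum_cond (f := g) (fun w => ¬ p w)
  have h2 : ∑ᶠ w : {w // p w}, g w.1 = ∑ᶠ w ∈ {w | p w}, g w :=
    finsum_subtype_eq_finsum_cond (f := g) p
  rw [h1, h2, ← finsum_mem_union' (by
    rw [Set.disjoint_left]
    intro w hw hw'
    exact hw hw') (hg.subset Set.inter_subset_right) (hg.subset Set.inter_subset_right)]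
  have h3 : ({w | ¬ p w} ∪ {w | p w} : Set α) = Set.univ := by
    refine Set.eq_univ_of_forall fun w => ?_
    by_cases h : p w
    · exact Or.inr h
    · exact Or.inl h
  rw [h3, finsum_mem_univ]

end FmtPf

open FmtPf

theorem fmt : FmtStm := by
  classical
  intro E _ _ P M e t x hy
  set y : E := ∑ β, t β * val x β.1 with hydef
  have ht : t ≠ 0 := by
    rintro rfl
    refine hy ?_
    rw [hydef]
    exact Finset.sum_eq_zero fun β _ => by rw [Pi.zero_apply, zero_mul]
  have hx : e ≠ 0 → x ≠ 0 := by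
    rintro he rfl
    refine hy ?_
    rw [hydef]
    refine Finset.sum_eq_zero fun β _ => ?_
    have h1 : β.1 ≠ 0 := by
      intro h0
      have h2 := β.2
      rw [h0, map_zero] at h2
      exact he h2.symm
    obtain ⟨i, hi⟩ := Finsupp.ne_iff.1 h1
    have h3 : val (0 : Fin (M + 1) → E) β.1 = 0 := by
      refine Finset.prod_eq_zero (Finset.mem_univ i) ?_
      rw [Pi.zero_apply]
      exact zero_pow hi
    rw [h3, mul_zero]
  -- the local identity
  have key : ∀ f : E → ℝ, (∀ a, a ≠ 0 → 0 < f a) →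
      Real.log ((⨆ β, f (t β)) * (⨆ a, f (x a)) ^ e / f y) =
        Real.log (⨆ β, f (t β)) + e * Real.log (⨆ a, f (x a)) - Real.log (f y) := by
    intro f hf
    have hT := sup_pos ht f hf
    have hY := hf y hy
    have hX : 0 < (⨆ a, f (x a)) ^ e := by
      by_cases he : e = 0
      · rw [he, pow_zero]
        exact one_pos
      · exact pow_pos (sup_pos (hx he) f hf) _
    rw [Real.log_div (mul_pos hT hX).ne' hY.ne', Real.log_mul hT.ne' hX.ne', Real.log_pow]
  have keyI : ∀ w : InfinitePlace E, Real.log ((⨆ β, w (t β)) * (⨆ a, w (x a)) ^ e / w y) =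
      Real.log (⨆ β, w (t β)) + e * Real.log (⨆ a, w (x a)) - Real.log (w y) := fun w =>
    key (fun a => w a) fun a ha => InfinitePlace.pos_iff.2 ha
  have keyF : ∀ w : FinitePlace E, Real.log ((⨆ β, w (t β)) * (⨆ a, w (x a)) ^ e / w y) =
      Real.log (⨆ β, w (t β)) + e * Real.log (⨆ a, w (x a)) - Real.log (w y) := fun w =>
    key (fun a => w a) fun a ha => FinitePlace.pos_iff.2 ha
  -- finite supports
  have sT := sup_supp ht
  have sX : (Function.support fun v : FinitePlace E => (e : ℝ) * Real.log (⨆ i, v (x i))).Finite := by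
    by_cases he : e = 0
    · refine Set.finite_empty.subset fun v hv => hv ?_
      show (e : ℝ) * _ = 0
      rw [he, Nat.cast_zero, zero_mul]
    · refine (sup_supp (hx he)).subset fun v hv h => hv ?_
      show (e : ℝ) * Real.log (⨆ i, v (x i)) = 0
      rw [show Real.log (⨆ i, v (x i)) = 0 from h, mul_zero]
  have sY : (Function.support fun v : FinitePlace E => Real.log (v y)).Finite := by
    refine (Pool.Agent.NH29.GN.CntAux.fin_supp y).subset fun v hv => ⟨hy, fun h => hv ?_⟩
    show Real.log (v y) = 0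
    rw [h, Real.log_one]
  have sG : (Function.support fun w : FinitePlace E =>
      Real.log ((⨆ β, w (t β)) * (⨆ a, w (x a)) ^ e / w y)).Finite := by
    refine ((sT.union sX).union sY).subset fun v hv => ?_
    by_contra hcon
    rw [Set.mem_union, Set.mem_union, not_or, not_or] at hcon
    obtain ⟨⟨c1, c2⟩, c3⟩ := hcon
    rw [Function.notMem_support] at c1 c2 c3
    refine hv ?_
    show Real.log ((⨆ β, v (t β)) * (⨆ a, v (x a)) ^ e / v y) = 0
    rw [keyF, c1, c2, c3]
    norm_num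
  unfold proxP cntP
  rw [add_assoc]
  have hs := split (fun w : FinitePlace E =>
    Real.log ((⨆ β, w (t β)) * (⨆ a, w (x a)) ^ e / w y)) sG (fun w => ∀ p ∈ P, w (p : E) = 1)
  have hs' : ∑ᶠ w : {w : FinitePlace E // ¬ ∀ p ∈ P, w (p : E) = 1},
      Real.log ((⨆ β, w.1 (t β)) * (⨆ a, w.1 (x a)) ^ e / w.1 y) +
      ∑ᶠ w : Off P E, Real.log ((⨆ β, w.1 (t β)) * (⨆ a, w.1 (x a)) ^ e / w.1 y) =
      ∑ᶠ w : FinitePlace E, Real.log ((⨆ β, w (t β)) * (⨆ a, w (x a)) ^ e / w y) := hs
  rw [hs']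
  -- the sum over the finite places
  have hF : ∑ᶠ w : FinitePlace E, Real.log ((⨆ β, w (t β)) * (⨆ a, w (x a)) ^ e / w y) =
      ∑ᶠ w : FinitePlace E, Real.log (⨆ β, w (t β)) +
        ∑ᶠ w : FinitePlace E, (e : ℝ) * Real.log (⨆ a, w (x a)) -
        ∑ᶠ w : FinitePlace E, Real.log (w y) := by
    rw [finsum_congr keyF, ← finsum_add_distrib sT sX, ← finsum_sub_distrib _ sY]
    exact ((sT.union sX)).subset (Function.support_add _ _)
  have hF2 : ∑ᶠ w : FinitePlace E, (e : ℝ) * Real.log (⨆ a, w (x a)) =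
      e * ∑ᶠ w : FinitePlace E, Real.log (⨆ a, w (x a)) := by
    by_cases he : e = 0
    · rw [he]
      simp
    · exact (mul_finsum _ _).symm
  have hI : ∑ w : InfinitePlace E, (w.mult : ℝ) *
      Real.log ((⨆ β, w (t β)) * (⨆ a, w (x a)) ^ e / w y) =
      ∑ w : InfinitePlace E, (w.mult : ℝ) * Real.log (⨆ β, w (t β)) +
        e * ∑ w : InfinitePlace E, (w.mult : ℝ) * Real.log (⨆ a, w (x a)) -
        ∑ w : InfinitePlace E, (w.mult : ℝ) * Real.log (w y) := by
    rw [Finset.mul_sum, ← Finset.sum_add_distrib, ← Finset.sum_sub_distrib]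
    refine Finset.sum_congr rfl fun w _ => ?_
    rw [keyI]
    ring
  rw [hF, hF2, hI]
  have hh := height_sum ht
  have hp := prod_formula hy
  have hxx : (e : ℝ) * (∑ w : InfinitePlace E, (w.mult : ℝ) * Real.log (⨆ i, w (x i)) +
      ∑ᶠ w : FinitePlace E, Real.log (⨆ i, w (x i))) = e * logHeight x := by
    by_cases he : e = 0
    · rw [he, Nat.cast_zero, zero_mul, zero_mul]
    · rw [height_sum (hx he)]
  rw [← hh, ← hxx]
  linarith

end Pool.Agent.NH29.GH
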