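import Pool.Agent.NH29.GH.Stm
import Pool.Agent.NH29.GN.Hi2

/-!
# Project GH: assembly
-/

set_option autoImplicit false

namespace Pool.Agent.NH29.GH

open MvPolynomial Module Filter Height NumberField
open Pool.Agent.NH29.GN (Idx Mon fv val UPr HFam Sm SmN MueStm NoZero)
open Pool.Agent.NH29.GN.Hi (sm_mul sm_inv sm_cst sm_zpow sm_prod)
open Pool.Agent.NH8.GD (pv qn StcStm)

/-- the points off the hypersurfaces -/
structure PtD {k κ E : Type} [Field k] [Field κ] [Field E] [Algebra k κ] [Algebra κ E] {M q : ℕ}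
    (V : Set (MvPolynomial (Fin (M + 1)) k)) {d : Fin q → ℕ} (t : Idx M d → κ)
    (x : Fin (M + 1) → E) : Prop where
  ne : x ≠ 0
  onV : ∀ H ∈ V, eval₂ ((algebraMap κ E).comp (algebraMap k κ)) x H = 0
  off : ∀ b, fv t x b ≠ 0

/-- the right hand side of the inequality -/
noncomputable def rhsD {κ E : Type} [Field κ] [NumberField κ] [Field E] [NumberField E]
    [Algebra κ E] (P : Finset ℕ) {M q : ℕ} {d : Fin q → ℕ} (t : Idx M d → κ)
    (x : Fin (M + 1) → E) : ℝ :=
  1 + ∑ s, nh (t s) + ∑ b, cntP P (fun β => algebraMap κ E (t ⟨b, β⟩)) x / (finrank ℚ E : ℝ)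

theorem nh_nonneg {L : Type} [Field L] [NumberField L] (a : L) : 0 ≤ nh a :=
  div_nonneg (zero_le_logHeight₁ a) (Nat.cast_nonneg _)

theorem nH_nonneg {L : Type} [Field L] [NumberField L] {ι : Type} [Finite ι] (x : ι → L) : 0 ≤ nH x :=
  div_nonneg (logHeight_nonneg x) (Nat.cast_nonneg _)

theorem fin_pos (L : Type) [Field L] [NumberField L] : (0 : ℝ) < finrank ℚ L := by
  exact_mod_cast (finrank_pos : 0 < finrank ℚ L)

theorem log_eq {L : Type} [Field L] [NumberField L] (a : L) :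
    logHeight₁ a = finrank ℚ L * nh a := by
  unfold nh
  rw [mul_div_cancel₀ _ (fin_pos L).ne']

theorem fv_self {κ E : Type} [Field κ] [Field E] [Algebra κ E] {M q : ℕ} {d : Fin q → ℕ}
    (t : Idx M d → κ) (x : Fin (M + 1) → E) (b : Fin q) :
    fv (K := E) (L := E) (fun s => algebraMap κ E (t s)) x b = fv t x b := by
  unfold fv
  refine Finset.sum_congr rfl fun β _ => ?_
  rw [Algebra.algebraMap_self, RingHom.id_apply]

theorem fv_hom {κ E L : Type} [Field κ] [Field E] [Field L] [Algebra κ E] [Algebra κ L]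
    (σ : E →ₐ[κ] L) {M q : ℕ} {d : Fin q → ℕ} (t : Idx M d → κ) (x : Fin (M + 1) → E)
    (b : Fin q) :
    fv (K := L) (L := L) (fun s => algebraMap κ L (t s)) (fun a => σ (x a)) b =
      σ (fv t x b) := by
  unfold fv
  rw [map_sum]
  refine Finset.sum_congr rfl fun β _ => ?_
  rw [Algebra.algebraMap_self, RingHom.id_apply, map_mul, AlgHom.commutes]
  unfold val
  rw [map_prod]
  simp only [map_pow]

/-- the quotients are close to `Γ` -/
theorem near (sup : SupStm) (cnp : CnpStm) (nrm : NrmStm) (ext : ExtStm) {κ : Type} [Field κ]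
    [NumberField κ] (P : Finset ℕ) (hP : ∀ p ∈ P, p ≠ 0) {M q : ℕ} (d : Fin q → ℕ) (m : ℕ) :
    ∃ (Γ : Subgroup κˣ) (A : ℝ), Γ.FG ∧ 0 ≤ A ∧ ∀ (E : Type) [Field E] [NumberField E]
      [Algebra κ E], finrank κ E = m → ∀ (t : Idx M d → κ) (x : Fin (M + 1) → E),
      (∀ b, fv t x b ≠ 0) → 1 ≤ rhsD P t x ∧ (∀ s, nh (t s) ≤ rhsD P t x) ∧
      ∀ b₀ b, ∃ γ ∈ Γ,
        nh (Algebra.norm κ (fv t x b ^ d b₀ / fv t x b₀ ^ d b) / ((γ : κˣ) : κ)) ≤
        A * rhsD P t x := by
  classical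
  obtain ⟨Γ, A, hΓ, hA, h⟩ := sup κ P hP
  set D : ℝ := ∑ b, (d b : ℝ) with hD
  have hD0 : 0 ≤ D := Finset.sum_nonneg fun b _ => Nat.cast_nonneg _
  have hdD : ∀ b, (d b : ℝ) ≤ D := fun b =>
    Finset.single_le_sum (f := fun b => (d b : ℝ)) (fun b _ => Nat.cast_nonneg _)
      (Finset.mem_univ b)
  refine ⟨Γ, A * (1 + 4 * D) * m, hΓ, by positivity, ?_⟩
  intro E _ _ _ hm t x hx
  have hm0 : 0 < m := by
    rw [← hm]
    exact finrank_pos
  have hFE : (finrank ℚ E : ℝ) = finrank ℚ κ * m := by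
    rw [← hm, ← Nat.cast_mul, Module.finrank_mul_finrank]
  have hF0 := fin_pos κ
  have hE0 := fin_pos E
  have hY : 0 ≤ ∑ s, nh (t s) := Finset.sum_nonneg fun i _ => nh_nonneg _
  have hxE : ∀ b, fv (K := E) (L := E) (fun s => algebraMap κ E (t s)) x b ≠ 0 := fun b => by
    rw [fv_self]
    exact hx b
  have hc0 : ∀ b, 0 ≤ cntP P (fun β => algebraMap κ E (t ⟨b, β⟩)) x := fun b =>
    (cnp E P hP M q d (fun s => algebraMap κ E (t s)) x b b (hxE b) (hxE b)).1
  have hZ : 0 ≤ ∑ b, cntP P (fun β => algebraMap κ E (t ⟨b, β⟩)) x :=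
    Finset.sum_nonneg fun b _ => hc0 b
  have hZ' : 0 ≤ ∑ b, cntP P (fun β => algebraMap κ E (t ⟨b, β⟩)) x / (finrank ℚ E : ℝ) :=
    Finset.sum_nonneg fun b _ => div_nonneg (hc0 b) hE0.le
  have hZe : ∑ b, cntP P (fun β => algebraMap κ E (t ⟨b, β⟩)) x =
      finrank ℚ E * ∑ b, cntP P (fun β => algebraMap κ E (t ⟨b, β⟩)) x / (finrank ℚ E : ℝ) := by
    rw [← Finset.sum_div, mul_div_cancel₀ _ hE0.ne']
  have h1 : 1 ≤ rhsD P t x := by
    unfold rhsD
    linarith
  refine ⟨h1, fun s => ?_, fun b₀ b => ?_⟩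
  · have h2 := Finset.single_le_sum (f := fun s => nh (t s)) (fun i _ => nh_nonneg _)
      (Finset.mem_univ s)
    have h3 : nh (t s) ≤ ∑ s, nh (t s) := h2
    unfold rhsD
    linarith
  have hcl : ∀ b, cntP P (fun β => algebraMap κ E (t ⟨b, β⟩)) x ≤
      ∑ b, cntP P (fun β => algebraMap κ E (t ⟨b, β⟩)) x := fun b =>
    Finset.single_le_sum (f := fun b => cntP P (fun β => algebraMap κ E (t ⟨b, β⟩)) x)
      (fun b _ => hc0 b) (Finset.mem_univ b)
  obtain ⟨w, hw⟩ : ∃ w : E, w = fv t x b ^ d b₀ / fv t x b₀ ^ d b := ⟨_, rfl⟩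
  have hw0 : w ≠ 0 := by
    rw [hw]
    exact div_ne_zero (pow_ne_zero _ (hx b)) (pow_ne_zero _ (hx b₀))
  have hn0 : Algebra.norm κ w ≠ 0 := (Algebra.norm_ne_zero_iff).2 hw0
  obtain ⟨γ, hγ, hle⟩ := h (Units.mk0 _ hn0)
  rw [← hw]
  refine ⟨γ, hγ, ?_⟩
  rw [Units.val_mk0] at hle
  have h2 : ∑ᶠ v : Off P κ, |Real.log (v.1 (Algebra.norm κ w))| ≤
      4 * D * (finrank ℚ E * rhsD P t x) := by
    refine (nrm κ E P w hw0).trans ?_
    have h3 := (cnp E P hP M q d (fun s => algebraMap κ E (t s)) x b b₀ (hxE b) (hxE b₀)).2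
    rw [fv_self, fv_self, ← hw] at h3
    refine h3.trans ?_
    have h4 : ∑ s, logHeight₁ (algebraMap κ E (t s)) = finrank ℚ E * ∑ s, nh (t s) := by
      rw [Finset.mul_sum]
      refine Finset.sum_congr rfl fun s _ => ?_
      rw [log_eq, (ext κ E (algebraMap κ E)).1]
    rw [h4]
    have e1 : (d b₀ : ℝ) * cntP P (fun β => algebraMap κ E (t ⟨b, β⟩)) x ≤
        D * ∑ b, cntP P (fun β => algebraMap κ E (t ⟨b, β⟩)) x :=
      mul_le_mul (hdD b₀) (hcl b) (hc0 b) hD0
    have e2 : (d b : ℝ) * cntP P (fun β => algebraMap κ E (t ⟨b₀, β⟩)) x ≤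
        D * ∑ b, cntP P (fun β => algebraMap κ E (t ⟨b, β⟩)) x :=
      mul_le_mul (hdD b) (hcl b₀) (hc0 b₀) hD0
    have e3 : 2 * ((d b : ℝ) + d b₀) * (finrank ℚ E * ∑ s, nh (t s)) ≤
        4 * D * (finrank ℚ E * ∑ s, nh (t s)) :=
      mul_le_mul_of_nonneg_right (by linarith [hdD b, hdD b₀]) (mul_nonneg hE0.le hY)
    have e4 : 4 * D * (finrank ℚ E * rhsD P t x) =
        4 * D * finrank ℚ E + 4 * D * (finrank ℚ E * ∑ s, nh (t s)) +
        4 * D * ∑ b, cntP P (fun β => algebraMap κ E (t ⟨b, β⟩)) x := by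
      rw [hZe]
      unfold rhsD
      ring
    have e5 : 0 ≤ 4 * D * (finrank ℚ E : ℝ) := by positivity
    have e6 := mul_nonneg hD0 hZ
    linarith
  have h5 : logHeight₁ (Algebra.norm κ w / ((γ : κˣ) : κ)) ≤
      A * (1 + 4 * D) * (finrank ℚ E * rhsD P t x) := by
    refine hle.trans ?_
    rw [mul_assoc]
    refine mul_le_mul_of_nonneg_left ?_ hA
    have h6 : (1 : ℝ) ≤ finrank ℚ E := by
      exact_mod_cast (finrank_pos : 0 < finrank ℚ E)
    nlinarith
  rw [log_eq, hFE] at h5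
  have h7 : (finrank ℚ κ : ℝ) * nh (Algebra.norm κ w / ((γ : κˣ) : κ)) ≤
      finrank ℚ κ * (A * (1 + 4 * D) * m * rhsD P t x) := by
    refine h5.trans (le_of_eq ?_)
    ring
  exact le_of_mul_le_mul_left h7 hF0

/-- a counterexample, with a field that contains all the conjugates -/
structure Dat {k : Type} [Field k] (κ : Type) [Field κ] [NumberField κ] [Algebra k κ] {M q : ℕ}
    (V : Set (MvPolynomial (Fin (M + 1)) k)) (d : Fin q → ℕ) (P : Finset ℕ) (m : ℕ)
    (Q : MvPolynomial (Idx M d) k) (s : ℕ) where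
  /-- the coefficients -/
  t : Idx M d → κ
  ht : aeval t Q ≠ 0
  /-- the field of the point -/
  E : Type
  [fE : Field E]
  [nE : NumberField E]
  [aE : Algebra κ E]
  fin : finrank κ E = m
  /-- the point -/
  x : Fin (M + 1) → E
  pt : PtD V t x
  lt : s * rhsD P t x < nH x
  /-- the field of the conjugates -/
  L : Type
  [fL : Field L]
  [nL : NumberField L]
  [aL : Algebra κ L]
  finL : finrank κ L ≤ m ^ m
  /-- the conjugates -/
  e : Fin m → (E →ₐ[κ] L)
  he : ∀ a : E, algebraMap κ L (Algebra.norm κ a) = ∏ l, e l a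

attribute [instance] Dat.fE Dat.nE Dat.aE Dat.fL Dat.nL Dat.aL

section dat

variable {k κ : Type} [Field k] [Field κ] [NumberField κ] [Algebra k κ] {M q : ℕ}
  {V : Set (MvPolynomial (Fin (M + 1)) k)} {d : Fin q → ℕ} {P : Finset ℕ} {m : ℕ}
  {Q : MvPolynomial (Idx M d) k} {s : ℕ}

instance (D : Dat κ V d P m Q s) : Algebra k D.L :=
  ((algebraMap κ D.L).comp (algebraMap k κ)).toAlgebra

instance (D : Dat κ V d P m Q s) : IsScalarTower k κ D.L :=
  IsScalarTower.of_algebraMap_eq' rfl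

/-- the coefficients in `L` -/
noncomputable def Dat.tL (D : Dat κ V d P m Q s) : Idx M d → D.L := fun i => algebraMap κ D.L (D.t i)

/-- the conjugates of the point -/
noncomputable def Dat.xL (D : Dat κ V d P m Q s) : Fin m → Fin (M + 1) → D.L := fun l a => D.e l (D.x a)

/-- the norms of the quotients -/
noncomputable def Dat.w (D : Dat κ V d P m Q s) (b₀ b : Fin q) : κ :=
  Algebra.norm κ (fv D.t D.x b ^ d b₀ / fv D.t D.x b₀ ^ d b)

theorem Dat.fv_xL (D : Dat κ V d P m Q s) (l : Fin m) (b : Fin q) :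
    fv (K := D.L) (L := D.L) D.tL (D.xL l) b = D.e l (fv D.t D.x b) :=
  fv_hom (D.e l) D.t D.x b

theorem Dat.qn_eq (D : Dat κ V d P m Q s) (b₀ b : Fin q) :
    qn D.tL D.xL b₀ b = algebraMap κ D.L (D.w b₀ b) := by
  unfold qn pv Dat.w
  rw [D.he]
  simp only [D.fv_xL]
  rw [← Finset.prod_pow, ← Finset.prod_pow, ← Finset.prod_div_distrib]
  refine Finset.prod_congr rfl fun l _ => ?_
  rw [map_div₀, map_pow, map_pow]

theorem Dat.w_ne (D : Dat κ V d P m Q s) (b₀ b : Fin q) : D.w b₀ b ≠ 0 :=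
  (Algebra.norm_ne_zero_iff).2
    (div_ne_zero (pow_ne_zero _ (D.pt.off b)) (pow_ne_zero _ (D.pt.off b₀)))

theorem Dat.aeval_tL (D : Dat κ V d P m Q s) : aeval D.tL Q ≠ 0 := by
  have h : aeval D.tL Q = algebraMap κ D.L (aeval D.t Q) := by
    unfold Dat.tL
    rw [← aeval_algebraMap_apply]
    rfl
  rw [h, Ne, map_eq_zero]
  exact D.ht

theorem Dat.aeval_xL (D : Dat κ V d P m Q s) (l : Fin m) (H : MvPolynomial (Fin (M + 1)) k)
    (hH : H ∈ V) : aeval (D.xL l) H = 0 := by
  have h := congrArg (D.e l) (D.pt.onV H hH)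
  rw [map_zero] at h
  rw [← h, aeval_def]
  change _ = (D.e l).toRingHom (eval₂ _ _ _)
  rw [hom_eval₂]
  congr 1
  ext a
  change algebraMap κ D.L (algebraMap k κ a) = D.e l (algebraMap κ D.E (algebraMap k κ a))
  rw [AlgHom.commutes]

theorem Dat.xL_ne (D : Dat κ V d P m Q s) (l : Fin m) : D.xL l ≠ 0 := by
  intro h
  apply D.pt.ne
  funext a
  have h1 : D.e l (D.x a) = 0 := congrFun h a
  rwa [map_eq_zero] at h1

end dat

/-- points of degree `m` -/
theorem gh_one (hnu : HnuStm) (ext : ExtStm) (emb : EmbStm) (trc : TrcStm) (nrm : NrmStm)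
    (cnp : CnpStm) (sup : SupStm) (absd : AbsdStm) (stbd : StbdStm) (mue : MueStm) (stc : StcStm)
    {k : Type} [Field k] [CharZero k] {M n q m : ℕ}
    {V : Set (MvPolynomial (Fin (M + 1)) k)} (hV : ∀ H ∈ V, ∃ e, H.IsHomogeneous e)
    {ℓ : Fin (n + 1) → MvPolynomial (Fin (M + 1)) k} (hℓ : ∀ j, (ℓ j).IsHomogeneous 1)
    (hN : NoZero V ℓ) {d : Fin q → ℕ} (hd : ∀ i, 1 ≤ d i) (hm : 1 ≤ m) (hq : n * m + 2 ≤ q)
    (hnum : ∀ b, m * (q - 1) < (q - n * m - 1) * (d b + 2 - m)) :
    ∃ Φ : MvPolynomial (Idx M d) k, Φ ≠ 0 ∧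
      ∀ (κ : Type) [Field κ] [NumberField κ] [Algebra k κ] (P : Finset ℕ), (∀ p ∈ P, p ≠ 0) →
      ∃ A : ℝ, ∀ t : Idx M d → κ, aeval t Φ ≠ 0 → ∀ (E : Type) [Field E] [NumberField E]
        [Algebra κ E], finrank κ E = m → ∀ x : Fin (M + 1) → E, PtD V t x →
        nH x ≤ A * rhsD P t x := by
  classical
  by_contra hcon
  push Not at hcon
  obtain ⟨K', L', _, _, _, _, _, t', x', ht', hx'⟩ := stbd k M q m V d (by
    intro Q hQ
    obtain ⟨κ, iκ, iN, iA, P, hP, hA⟩ := hcon Q hQ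
    have hD : ∀ s : ℕ, Nonempty (Dat κ V d P m Q s) := by
      intro s
      obtain ⟨t, ht, E, fE, nE, aE, hfin, x, hx, hlt⟩ := hA s
      obtain ⟨L, fL, nL, aL, hfL, e, he⟩ := emb κ E
      rw [hfin] at hfL
      have e' : ∃ e' : Fin m → (E →ₐ[κ] L), ∀ a : E,
          algebraMap κ L (Algebra.norm κ a) = ∏ l, e' l a := by
        refine ⟨fun l => e (Fin.cast hfin.symm l), fun a => ?_⟩
        rw [(he a).1]
        exact (Equiv.prod_comp (finCongr hfin.symm) fun l => e l a).symm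
      obtain ⟨e', he'⟩ := e'
      exact ⟨⟨t, ht, E, hfin, x, hx, hlt, L, hfL, e', he'⟩⟩
    obtain ⟨D⟩ : Nonempty (∀ s, Dat κ V d P m Q s) := ⟨fun s => (hD s).some⟩
    obtain ⟨Γ, A₀, hΓ, hA₀, hnear⟩ := near sup cnp nrm ext (κ := κ) P hP d m
    obtain ⟨c, hc0, hc⟩ := hnu
    obtain ⟨𝒰, h𝒰⟩ : ∃ 𝒰 : Ultrafilter ℕ, 𝒰 = hyperfilter ℕ := ⟨_, rfl⟩
    have hcof : ∀ R : ℝ, ∀ᶠ s : ℕ in (𝒰 : Filter ℕ), R ≤ s := by
      intro R
      have h1 : ∀ᶠ s : ℕ in (cofinite : Filter ℕ), R ≤ s := by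
        rw [Nat.cofinite_eq_atTop]
        filter_upwards [eventually_ge_atTop ⌈R⌉₊] with n hn
        exact (Nat.le_ceil R).trans (by exact_mod_cast hn)
      rw [h𝒰]
      exact hyperfilter_le_cofinite h1
    have hR : ∀ s, 1 ≤ rhsD P (D s).t (D s).x := fun s =>
      (hnear (D s).E (D s).fin (D s).t (D s).x (D s).pt.off).1
    have hHs : ∀ s : ℕ, (s : ℝ) ≤ nH (D s).x := by
      intro s
      have h1 : (s : ℝ) * 1 ≤ s * rhsD P (D s).t (D s).x :=
        mul_le_mul_of_nonneg_left (hR s) (Nat.cast_nonneg s)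
      linarith [(D s).lt]
    have hHt : ∀ B : ℝ, ∀ᶠ s in (𝒰 : Filter ℕ), B ≤ nH (D s).x := fun B =>
      (hcof B).mono fun s hs => hs.trans (hHs s)
    let T : HFam 𝒰 (fun s : ℕ => (D s).L) :=
      { h := fun _ a => nh a
        H := fun s => nH (D s).x
        c := c
        nonneg := fun _ a => nh_nonneg a
        zero := fun _ => by
          unfold nh
          rw [logHeight₁_zero, zero_div]
          exact hc0 0
        one := fun _ => by
          unfold nh
          rw [logHeight₁_one, zero_div]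
          exact hc0 0
        neg := fun s a => (hc (D s).L).1 a
        inv := fun s a => (hc (D s).L).2.1 a
        add := fun s a b => (hc (D s).L).2.2.1 a b
        mul := fun s a b => (hc (D s).L).2.2.2.1 a b
        root := fun n s g a h => (hc (D s).L).2.2.2.2.1 n g a h
        small := fun n N => hHt _ }
    have hsmall : ∀ (B : ℝ) (f : ∀ s, (D s).L), 0 ≤ B →
        (∀ s, nh (f s) ≤ B * rhsD P (D s).t (D s).x) → Sm T f := by
      intro B f hB hf N
      refine (hcof (N * B)).mono fun s hs => ?_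
      change (N : ℝ) * nh (f s) ≤ nH (D s).x
      calc (N : ℝ) * nh (f s) ≤ N * (B * rhsD P (D s).t (D s).x) :=
            mul_le_mul_of_nonneg_left (hf s) (Nat.cast_nonneg N)
        _ = N * B * rhsD P (D s).t (D s).x := by ring
        _ ≤ s * rhsD P (D s).t (D s).x :=
            mul_le_mul_of_nonneg_right hs (le_trans zero_le_one (hR s))
        _ ≤ nH (D s).x := (D s).lt.le
    have hmap : ∀ s (a : κ), nh (algebraMap κ (D s).L a) = nh a := fun s a =>
      (ext κ (D s).L (algebraMap κ (D s).L)).1 a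
    have hSmN : ∀ f : ℕ → κ, SmN 𝒰 (fun s => nH (D s).x) f ↔
        Sm T fun s => algebraMap κ (D s).L (f s) := by
      intro f
      constructor
      · intro h N
        filter_upwards [h N] with s hs
        change (N : ℝ) * nh (algebraMap κ (D s).L (f s)) ≤ nH (D s).x
        rw [hmap]
        refine le_trans ?_ hs
        rw [log_eq]
        have h1 : (1 : ℝ) ≤ finrank ℚ κ := by
          exact_mod_cast (finrank_pos : 0 < finrank ℚ κ)
        have h2 := nh_nonneg (f s)
        refine mul_le_mul_of_nonneg_left ?_ (Nat.cast_nonneg N)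
        nlinarith
      · intro h N
        filter_upwards [h (N * finrank ℚ κ)] with s hs
        have hs' : ((N * finrank ℚ κ : ℕ) : ℝ) * nh (algebraMap κ (D s).L (f s)) ≤
          nH (D s).x := hs
        rw [hmap] at hs'
        rw [log_eq, ← mul_assoc]
        push_cast at hs'
        exact hs'
    have htS : ∀ i, Sm T fun s => (D s).tL i := by
      intro i
      refine hsmall 1 _ zero_le_one fun s => ?_
      change nh (algebraMap κ (D s).L ((D s).t i)) ≤ _
      rw [hmap, one_mul]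
      exact (hnear (D s).E (D s).fin (D s).t (D s).x (D s).pt.off).2.1 i
    obtain ⟨K', L', i1, i2, i3, i4, i5, t', x', h1, h2⟩ := absd k ℕ 𝒰 (fun s => (D s).L) T M q m
      V d (fun s => (D s).tL) (fun s => (D s).xL) Q
      (fun a N => by
        refine (hHt (N * nh (algebraMap k κ a))).mono fun s hs => ?_
        change (N : ℝ) * nh (algebraMap κ (D s).L (algebraMap k κ a)) ≤ nH (D s).x
        rw [hmap]
        exact hs)
      htS (fun s => (D s).aeval_tL) (fun s l H hH => (D s).aeval_xL l H hH)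
      (fun s l b => by
        rw [(D s).fv_xL, Ne, map_eq_zero]
        exact (D s).pt.off b)
      (fun s l => (D s).xL_ne l)
      (by
        refine ⟨⟨0, hm⟩, fun a₀ ha₀ => ?_⟩
        by_contra hall
        push Not at hall
        have h1 : ∀ᶠ s in (𝒰 : Filter ℕ), ∀ a, ((2 * (M + 1) : ℕ) : ℝ) *
            nh ((D s).xL ⟨0, hm⟩ a / (D s).xL ⟨0, hm⟩ a₀) ≤ nH (D s).x :=
          eventually_all.2 fun a => hall a (2 * (M + 1))
        obtain ⟨s, ⟨hs1, hs2⟩, hs3⟩ := ((h1.and ha₀).and (hHt 1)).exists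
        have h2 : nH ((D s).xL ⟨0, hm⟩) ≤
            ∑ a, nh ((D s).xL ⟨0, hm⟩ a / (D s).xL ⟨0, hm⟩ a₀) :=
          (hc (D s).L).2.2.2.2.2 M ((D s).xL ⟨0, hm⟩) a₀ hs2
        have h2' : nH ((D s).xL ⟨0, hm⟩) = nH (D s).x :=
          (ext (D s).E (D s).L ((D s).e ⟨0, hm⟩).toRingHom).2 M (D s).x
        rw [h2'] at h2
        have h3 : ((2 * (M + 1) : ℕ) : ℝ) *
            ∑ a, nh ((D s).xL ⟨0, hm⟩ a / (D s).xL ⟨0, hm⟩ a₀) ≤ (M + 1) * nH (D s).x := by
          rw [Finset.mul_sum]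
          refine (Finset.sum_le_sum fun a _ => hs1 a).trans (le_of_eq ?_)
          rw [Finset.sum_const, Finset.card_univ, Fintype.card_fin, nsmul_eq_mul]
          push_cast
          ring
        have h5 : (0 : ℝ) < (M : ℝ) + 1 := by positivity
        have h6 := mul_le_mul_of_nonneg_left h2 (by positivity : (0 : ℝ) ≤ ((2 * (M + 1) : ℕ) : ℝ))
        push_cast at h3 h6
        nlinarith [mul_pos h5 (by linarith : 0 < nH (D s).x)])
      (by
        intro b₀ S' hS' c' hcS hc0' hrel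
        obtain ⟨m₀, hm₀⟩ := hS'
        choose γ hγ hγe using fun s b =>
          (hnear (D s).E (D s).fin (D s).t (D s).x (D s).pt.off).2.2 b₀ b
        -- the coefficients in `κ`
        obtain ⟨a, ha⟩ : ∃ a : (Fin q → ℤ) → ℕ → κ, ∀ m' s, a m' s =
            ((finrank κ (D s).L : ℕ) : κ)⁻¹ *
              Algebra.trace κ (D s).L (c' m' s / c' m₀ s) := ⟨_, fun _ _ => rfl⟩
        obtain ⟨Ct, hCt, htr⟩ := trc (m ^ m)
        have haS : ∀ m' ∈ S', SmN 𝒰 (fun s => nH (D s).x) (a m') := by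
          intro m' hm'
          rw [hSmN]
          have h3 : Sm T fun s => c' m' s * (c' m₀ s)⁻¹ :=
            sm_mul (hcS m' hm') (sm_inv (hcS m₀ hm₀))
          intro N
          filter_upwards [h3 ⌈2 * (N : ℝ) * Ct⌉₊, hHt (2 * N * Ct)] with s hs1 hs2
          change (N : ℝ) * nh (algebraMap κ (D s).L (a m' s)) ≤ nH (D s).x
          rw [hmap, ha]
          have h4 := htr κ (D s).L (D s).finL (c' m' s / c' m₀ s)
          have hs1' : ((⌈2 * (N : ℝ) * Ct⌉₊ : ℕ) : ℝ) * nh (c' m' s / c' m₀ s) ≤ nH (D s).x := by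
            rw [div_eq_mul_inv]
            exact hs1
          have h5 : 2 * (N : ℝ) * Ct * nh (c' m' s / c' m₀ s) ≤ nH (D s).x :=
            (mul_le_mul_of_nonneg_right (Nat.le_ceil _) (nh_nonneg _)).trans hs1'
          have h6 := mul_le_mul_of_nonneg_left h4 (Nat.cast_nonneg N : (0 : ℝ) ≤ N)
          nlinarith
        have ha1 : ∀ᶠ s in (𝒰 : Filter ℕ), a m₀ s = 1 := by
          filter_upwards [hc0' m₀ hm₀] with s hs
          rw [ha, div_self hs]
          have h3 : Algebra.trace κ (D s).L 1 = ((finrank κ (D s).L : ℕ) : κ) := by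
            have h4 := Algebra.trace_algebraMap (R := κ) (S := (D s).L) (1 : κ)
            rw [map_one] at h4
            rw [h4, nsmul_eq_mul, mul_one]
          rw [h3, inv_mul_cancel₀]
          have h5 : finrank κ (D s).L ≠ 0 := (finrank_pos (R := κ) (M := (D s).L)).ne'
          exact_mod_cast h5
        have hra : ∀ᶠ s in (𝒰 : Filter ℕ), ∑ m' ∈ S', a m' s * ∏ b, (D s).w b₀ b ^ m' b = 0 := by
          filter_upwards [hrel, hc0' m₀ hm₀] with s hs hs0
          have h3 : ∑ m' ∈ S', (c' m' s / c' m₀ s) *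
              algebraMap κ (D s).L (∏ b, (D s).w b₀ b ^ m' b) = 0 := by
            have h4 : ∑ m' ∈ S', (c' m' s / c' m₀ s) *
                algebraMap κ (D s).L (∏ b, (D s).w b₀ b ^ m' b) =
                (c' m₀ s)⁻¹ * ∑ m' ∈ S', c' m' s * ∏ b, qn (D s).tL (D s).xL b₀ b ^ m' b := by
              rw [Finset.mul_sum]
              refine Finset.sum_congr rfl fun m' _ => ?_
              rw [map_prod]
              simp only [map_zpow₀, (D s).qn_eq]
              ring
            rw [h4, hs, mul_zero]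
          have h5 := congrArg (Algebra.trace κ (D s).L) h3
          rw [map_zero, map_sum] at h5
          have h6 : ∀ m' ∈ S', Algebra.trace κ (D s).L ((c' m' s / c' m₀ s) *
              algebraMap κ (D s).L (∏ b, (D s).w b₀ b ^ m' b)) =
              Algebra.trace κ (D s).L (c' m' s / c' m₀ s) * ∏ b, (D s).w b₀ b ^ m' b := by
            intro m' _
            rw [mul_comm, ← Algebra.smul_def, map_smul, smul_eq_mul, mul_comm]
          rw [Finset.sum_congr rfl h6] at h5
          have h7 : ∑ m' ∈ S', a m' s * ∏ b, (D s).w b₀ b ^ m' b =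
              ((finrank κ (D s).L : ℕ) : κ)⁻¹ * ∑ m' ∈ S',
                Algebra.trace κ (D s).L (c' m' s / c' m₀ s) * ∏ b, (D s).w b₀ b ^ m' b := by
            rw [Finset.mul_sum]
            refine Finset.sum_congr rfl fun m' _ => ?_
            rw [ha, mul_assoc]
          rw [h7, h5, mul_zero]
        -- the nonzero coefficients
        obtain ⟨J, hJ⟩ : ∃ J : Finset (Fin q → ℤ), J = S'.filter fun m' =>
          ∀ᶠ s in (𝒰 : Filter ℕ), a m' s ≠ 0 := ⟨_, rfl⟩
        have hJS : ∀ m' ∈ J, m' ∈ S' := fun m' h => by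
          rw [hJ] at h
          exact (Finset.mem_filter.1 h).1
        have hJ0 : ∀ m' ∈ J, ∀ᶠ s in (𝒰 : Filter ℕ), a m' s ≠ 0 := fun m' h => by
          rw [hJ] at h
          exact (Finset.mem_filter.1 h).2
        have hm₀J : m₀ ∈ J := by
          rw [hJ, Finset.mem_filter]
          exact ⟨hm₀, ha1.mono fun s hs => by rw [hs]; exact one_ne_zero⟩
        have hraJ : ∀ᶠ s in (𝒰 : Filter ℕ), ∑ m' ∈ J, a m' s * ∏ b, (D s).w b₀ b ^ m' b = 0 := by
          have h3 : ∀ᶠ s in (𝒰 : Filter ℕ), ∀ m' ∈ S' \ J, a m' s = 0 := by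
            rw [Filter.eventually_all_finset]
            intro m' hm'
            rw [Finset.mem_sdiff, hJ, Finset.mem_filter] at hm'
            have h4 : ¬ ∀ᶠ s in (𝒰 : Filter ℕ), ¬ a m' s = 0 := fun h => hm'.2 ⟨hm'.1, h⟩
            rw [Ultrafilter.eventually_not, not_not] at h4
            exact h4
          filter_upwards [hra, h3] with s hs1 hs2
          rw [← Finset.sum_subset (fun m' h => hJS m' h) fun m' h1 h2 => by
            rw [hs2 m' (Finset.mem_sdiff.2 ⟨h1, h2⟩), zero_mul]] at hs1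
          exact hs1
        have hneJ : Nonempty {m' // m' ∈ J} := ⟨⟨m₀, hm₀J⟩⟩
        have hcs : ∀ b, Sm T fun s =>
            algebraMap κ (D s).L ((D s).w b₀ b / ((γ s b : κˣ) : κ)) := fun b =>
          hsmall A₀ _ hA₀ fun s => by
            rw [hmap]
            exact hγe s b
        have hcm : ∀ m' : Fin q → ℤ, Sm T fun s =>
            algebraMap κ (D s).L (∏ b, ((D s).w b₀ b / ((γ s b : κˣ) : κ)) ^ m' b) := by
          intro m'
          have h3 : Sm T fun s =>
              ∏ b, algebraMap κ (D s).L ((D s).w b₀ b / ((γ s b : κˣ) : κ)) ^ m' b :=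
            sm_prod Finset.univ fun b _ => sm_zpow (hcs b) (m' b)
          refine Pool.Agent.NH29.GN.Sml68.sm_congr T (Eventually.of_forall fun s => ?_) h3
          rw [map_prod]
          simp only [map_zpow₀]
        have hprod : ∀ (m' : Fin q → ℤ) (s : ℕ), ∏ b, (D s).w b₀ b ^ m' b =
            (∏ b, ((D s).w b₀ b / ((γ s b : κˣ) : κ)) ^ m' b) *
              ((∏ b, γ s b ^ m' b : κˣ) : κ) := by
          intro m' s
          push_cast
          rw [← Finset.prod_mul_distrib]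
          refine Finset.prod_congr rfl fun b _ => ?_
          rw [← mul_zpow, div_mul_cancel₀ _ (Units.ne_zero _)]
        obtain ⟨i, j, hij, hsm⟩ := mue κ Γ hΓ 𝒰
          (fun s => nH (D s).x) hHt {m' // m' ∈ J} (fun m' s => ∏ b, γ s b ^ m'.1 b)
          (fun m' s => a m'.1 s * ∏ b, ((D s).w b₀ b / ((γ s b : κˣ) : κ)) ^ m'.1 b)
          (fun m' s => Γ.prod_mem fun b _ => Γ.zpow_mem (hγ s b) _)
          (fun m' => by
            filter_upwards [hJ0 m'.1 m'.2] with s hs
            refine mul_ne_zero hs (Finset.prod_ne_zero_iff.2 fun b _ => zpow_ne_zero _ ?_)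
            exact div_ne_zero ((D s).w_ne b₀ b) (Units.ne_zero _))
          (fun m' => by
            rw [hSmN]
            have h3 := sm_mul ((hSmN _).1 (haS m'.1 (hJS m'.1 m'.2))) (hcm m'.1)
            refine Pool.Agent.NH29.GN.Sml68.sm_congr T (Eventually.of_forall fun s => ?_) h3
            rw [map_mul]) (by
            filter_upwards [hraJ] with s hs
            rw [← hs, ← Finset.sum_coe_sort J]
            refine Finset.sum_congr rfl fun m' _ => ?_
            rw [mul_assoc, hprod])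
        refine ⟨i.1, hJS i.1 i.2, j.1, hJS j.1 j.2, fun h => hij (Subtype.ext h), ?_⟩
        have h3 := (hSmN _).1 hsm
        have h4 := sm_mul (sm_mul (hcm i.1) (sm_inv (hcm j.1))) h3
        refine Pool.Agent.NH29.GN.Sml68.sm_congr T (Eventually.of_forall fun s => ?_) h4
        have h5 : ∀ m' : Fin q → ℤ, ∏ b, qn (D s).tL (D s).xL b₀ b ^ m' b =
            algebraMap κ (D s).L (∏ b, (D s).w b₀ b ^ m' b) := by
          intro m'
          rw [map_prod]
          simp only [map_zpow₀, (D s).qn_eq]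
        rw [h5, h5, hprod, hprod]
        simp only [map_mul, map_div₀]
        rw [div_eq_mul_inv (_ * _) (_ * _), mul_inv, div_eq_mul_inv]
        ring)
    exact ⟨K', L', i1, i2, i3, i4, i5, t', x', h1, h2⟩)
  exact stc k K' L' M n q m V hV ℓ hℓ hN d hd hq hnum t' ht' x' hx'

end Pool.Agent.NH29.GH
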