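import Pool.Agent.NH29.GH.Stm

/-!
# Project GH, job NRM: finite places and norms
-/

set_option autoImplicit false

namespace Pool.Agent.NH29.GH

open NumberField IsDedekindDomain Module

namespace Nrm

variable {κ E : Type} [Field κ] [NumberField κ] [Field E] [NumberField E] [Algebra κ E]

/-- the part of an ideal at a prime -/
noncomputable def G {K : Type} [Field K] [NumberField K] (v : HeightOneSpectrum (𝓞 K))
    (J : Ideal (𝓞 K)) : ℝ :=
  (multiplicity v.asIdeal J : ℝ) * Real.log (Ideal.absNorm v.asIdeal)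

theorem G_mul {K : Type} [Field K] [NumberField K] (v : HeightOneSpectrum (𝓞 K))
    {I J : Ideal (𝓞 K)} (hI : I ≠ ⊥) (hJ : J ≠ ⊥) : G v (I * J) = G v I + G v J := by
  have h : FiniteMultiplicity v.asIdeal (I * J) :=
    FiniteMultiplicity.of_prime_left v.prime (mul_ne_zero hI hJ)
  unfold G
  rw [multiplicity_mul v.prime h]
  push_cast
  ring

theorem G_one {K : Type} [Field K] [NumberField K] (v : HeightOneSpectrum (𝓞 K)) :
    G v (1 : Ideal (𝓞 K)) = 0 := by
  unfold G
  rw [multiplicity_eq_zero.2 fun h => v.prime.not_isUnit (isUnit_of_dvd_one h)]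
  simp

theorem G_pow {K : Type} [Field K] [NumberField K] (v : HeightOneSpectrum (𝓞 K))
    {I : Ideal (𝓞 K)} (hI : I ≠ ⊥) (n : ℕ) : G v (I ^ n) = n * G v I := by
  induction n with
  | zero =>
    rw [pow_zero, G_one]
    simp
  | succ n ih =>
    rw [pow_succ, G_mul v (pow_ne_zero n hI) hI, ih]
    push_cast
    ring

theorem G_prod {K : Type} [Field K] [NumberField K] (v : HeightOneSpectrum (𝓞 K)) {ι : Type}
    (s : Finset ι) (f : ι → Ideal (𝓞 K)) (hf : ∀ i ∈ s, f i ≠ ⊥) :
    G v (∏ i ∈ s, f i) = ∑ i ∈ s, G v (f i) := by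
  classical
  induction s using Finset.induction_on with
  | empty => simpa using G_one v
  | insert a s ha ih =>
    rw [Finset.prod_insert ha, Finset.sum_insert ha,
      G_mul v (hf a (Finset.mem_insert_self _ _)), ih]
    · exact fun i hi => hf i (Finset.mem_insert_of_mem hi)
    · exact Finset.prod_ne_zero_iff.2 fun i hi => hf i (Finset.mem_insert_of_mem hi)

/-- the place below -/
noncomputable def below (κ : Type) {E : Type} [Field κ] [NumberField κ] [Field E] [NumberField E]
    [Algebra κ E] (w : FinitePlace E) : FinitePlace κ :=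
  FinitePlace.mk ⟨w.maximalIdeal.asIdeal.comap (algebraMap (𝓞 κ) (𝓞 E)),
    Ideal.IsPrime.comap _, fun h => w.maximalIdeal.ne_bot (Ideal.eq_bot_of_comap_eq_bot h)⟩

theorem below_ideal (w : FinitePlace E) : (below κ w).maximalIdeal.asIdeal =
    w.maximalIdeal.asIdeal.comap (algebraMap (𝓞 κ) (𝓞 E)) := by
  unfold below
  rw [FinitePlace.maximalIdeal_mk]

theorem G_self {K : Type} [Field K] [NumberField K] (v : HeightOneSpectrum (𝓞 K)) :
    G v v.asIdeal = Real.log (Ideal.absNorm v.asIdeal) := by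
  unfold G
  rw [multiplicity_self]
  simp

theorem G_ne {K : Type} [Field K] [NumberField K] (v v' : HeightOneSpectrum (𝓞 K)) (h : v ≠ v') :
    G v v'.asIdeal = 0 := by
  unfold G
  have : ¬ v.asIdeal ∣ v'.asIdeal := fun h1 => by
    have h6 := (v.prime.dvd_prime_iff_associated v'.prime).1 h1
    rw [associated_iff_eq] at h6
    exact h (HeightOneSpectrum.ext h6)
  rw [multiplicity_eq_zero.2 this]
  simp

theorem relNorm_ne {I : Ideal (𝓞 E)} (hI : I ≠ ⊥) : Ideal.relNorm (𝓞 κ) I ≠ ⊥ := fun h =>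
  hI (Ideal.relNorm_eq_bot_iff.1 h)

open scoped Classical in
theorem G_relNorm_prime (v : FinitePlace κ) (w : FinitePlace E) :
    G v.maximalIdeal (Ideal.relNorm (𝓞 κ) w.maximalIdeal.asIdeal) =
      if below κ w = v then Real.log (Ideal.absNorm w.maximalIdeal.asIdeal) else 0 := by
  have hlo : w.maximalIdeal.asIdeal.LiesOver (below κ w).maximalIdeal.asIdeal :=
    ⟨below_ideal w⟩
  obtain ⟨s, hs⟩ := Ideal.exists_relNorm_eq_pow_of_isPrime w.maximalIdeal.asIdeal
    (below κ w).maximalIdeal.asIdeal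
  have hpf : PerfectField (FractionRing (𝓞 κ)) := by
    have : CharZero (FractionRing (𝓞 κ)) :=
      charZero_of_injective_algebraMap (IsFractionRing.injective (𝓞 κ) (FractionRing (𝓞 κ)))
    exact PerfectField.ofCharZero
  have hn := Ideal.absNorm_relNorm (𝓞 κ) (𝓞 E) w.maximalIdeal.asIdeal
  rw [hs, map_pow] at hn
  rw [hs, G_pow _ (below κ w).maximalIdeal.ne_bot]
  split_ifs with h
  · rw [← h, G_self, ← hn]
    push_cast
    rw [Real.log_pow]
  · rw [G_ne, mul_zero]
    intro h'
    exact h ((FinitePlace.maximalIdeal_inj _ _).1 h'.symm)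

theorem log_apply {K : Type} [Field K] [NumberField K] (v : FinitePlace K) {x : 𝓞 K}
    (hx : x ≠ 0) : Real.log (v (x : K)) = - G v.maximalIdeal (Ideal.span {x}) := by
  have h := FinitePlace.apply_mul_absNorm_pow_eq_one v hx
  have h1 : v (x : K) ≠ 0 := fun h0 => by
    rw [h0, zero_mul] at h
    exact zero_ne_one h
  have h2 : (v.maximalIdeal.asIdeal.absNorm : ℝ) ≠ 0 := by
    exact_mod_cast Ideal.absNorm_eq_zero_iff.not.mpr v.maximalIdeal.ne_bot
  have h3 := congrArg Real.log h
  rw [Real.log_mul h1 (pow_ne_zero _ h2), Real.log_pow, Real.log_one] at h3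
  unfold G
  linarith

open scoped Classical in
theorem G_relNorm (v : FinitePlace κ) {I : Ideal (𝓞 E)} (hI : I ≠ ⊥) (S : Finset (FinitePlace E))
    (hS : ∀ w ∉ S, G w.maximalIdeal I = 0) :
    G v.maximalIdeal (Ideal.relNorm (𝓞 κ) I) =
      ∑ w ∈ S, if below κ w = v then G w.maximalIdeal I else 0 := by
  have hprod := FinitePlace.finprod_finitePlace_pow_multiplicity hI
  have hsub : (Function.mulSupport fun w : FinitePlace E =>
      w.maximalIdeal.asIdeal ^ multiplicity w.maximalIdeal.asIdeal I) ⊆ ↑S := by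
    intro w hw
    by_contra hn
    apply hw
    have h1 := hS w hn
    unfold G at h1
    have h2 : Real.log (Ideal.absNorm w.maximalIdeal.asIdeal) ≠ 0 := by
      have := HeightOneSpectrum.one_lt_absNorm w.maximalIdeal
      have h3 : (1 : ℝ) < Ideal.absNorm w.maximalIdeal.asIdeal := by exact_mod_cast this
      exact (Real.log_pos h3).ne'
    have h4 : multiplicity w.maximalIdeal.asIdeal I = 0 := by
      have := (mul_eq_zero.1 h1).resolve_right h2
      exact_mod_cast this
    show _ ^ _ = _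
    rw [h4, pow_zero]
  rw [finprod_eq_prod_of_mulSupport_subset _ hsub] at hprod
  conv_lhs => rw [← hprod]
  rw [map_prod, G_prod]
  · refine Finset.sum_congr rfl fun w _ => ?_
    rw [map_pow, G_pow _ (relNorm_ne w.maximalIdeal.ne_bot), G_relNorm_prime]
    split_ifs
    · rfl
    · rw [mul_zero]
  · intro w _
    rw [map_pow]
    exact pow_ne_zero _ (relNorm_ne w.maximalIdeal.ne_bot)

open scoped Classical in
theorem log_norm_int (v : FinitePlace κ) {b : 𝓞 E} (hb : b ≠ 0) (S : Finset (FinitePlace E))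
    (hS : ∀ w ∉ S, w (b : E) = 1) :
    Real.log (v (Algebra.norm κ (b : E))) =
      ∑ w ∈ S, if below κ w = v then Real.log (w (b : E)) else 0 := by
  have hI : Ideal.span {b} ≠ (⊥ : Ideal (𝓞 E)) := mt Submodule.span_singleton_eq_bot.mp hb
  have h0 : Algebra.intNorm (𝓞 κ) (𝓞 E) b ≠ 0 := by
    intro h
    apply relNorm_ne (κ := κ) hI
    rw [Ideal.relNorm_singleton, h]
    simp
  have h1 : (Algebra.norm κ (b : E)) = ((Algebra.intNorm (𝓞 κ) (𝓞 E) b : 𝓞 κ) : κ) :=
    (Algebra.algebraMap_intNorm (A := 𝓞 κ) (K := κ) (L := E) (B := 𝓞 E) b).symm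
  rw [h1, log_apply v h0, ← Ideal.relNorm_singleton, G_relNorm v hI S, ← Finset.sum_neg_distrib]
  · refine Finset.sum_congr rfl fun w _ => ?_
    rw [log_apply w hb]
    split_ifs
    · rfl
    · rw [neg_zero]
  · intro w hw
    have := log_apply w hb
    rw [hS w hw, Real.log_one] at this
    linarith

open scoped Classical in
theorem log_norm (v : FinitePlace κ) {a : E} (ha : a ≠ 0) : ∀ S : Finset (FinitePlace E),
    (∀ w ∉ S, w a = 1) →
    Real.log (v (Algebra.norm κ a)) =
      ∑ w ∈ S, if below κ w = v then Real.log (w a) else 0 := by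
  obtain ⟨b, c, hc, rfl⟩ := IsFractionRing.div_surjective (𝓞 E) a
  have hc0 : c ≠ 0 := nonZeroDivisors.ne_zero hc
  have hb0 : b ≠ 0 := by
    rintro rfl
    apply ha
    simp
  intro S hS
  have fb : (Function.mulSupport fun w : FinitePlace E => w (b : E)).Finite :=
    FinitePlace.hasFiniteMulSupport_int hb0
  have fc : (Function.mulSupport fun w : FinitePlace E => w (c : E)).Finite :=
    FinitePlace.hasFiniteMulSupport_int hc0
  set T : Finset (FinitePlace E) := S ∪ (fb.toFinset ∪ fc.toFinset) with hT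
  have hTb : ∀ w ∉ T, w (b : E) = 1 := by
    intro w hw
    by_contra h
    apply hw
    rw [hT, Finset.mem_union, Finset.mem_union]
    refine Or.inr (Or.inl ?_)
    rw [Set.Finite.mem_toFinset, Function.mem_mulSupport]
    exact h
  have hTc : ∀ w ∉ T, w (c : E) = 1 := by
    intro w hw
    by_contra h
    apply hw
    rw [hT, Finset.mem_union, Finset.mem_union]
    refine Or.inr (Or.inr ?_)
    rw [Set.Finite.mem_toFinset, Function.mem_mulSupport]
    exact h
  have hbE : (b : E) ≠ 0 := RingOfIntegers.coe_ne_zero_iff.2 hb0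
  have hcE : (c : E) ≠ 0 := RingOfIntegers.coe_ne_zero_iff.2 hc0
  have hnb : v (Algebra.norm κ (b : E)) ≠ 0 :=
    (FinitePlace.pos_iff.2 (Algebra.norm_ne_zero_iff.2 hbE)).ne'
  have hnc : v (Algebra.norm κ (c : E)) ≠ 0 :=
    (FinitePlace.pos_iff.2 (Algebra.norm_ne_zero_iff.2 hcE)).ne'
  have e1 : Real.log (v (Algebra.norm κ ((b : E) / (c : E)))) =
      ∑ w ∈ T, if below κ w = v then Real.log (w ((b : E) / (c : E))) else 0 := by
    have hdiv : Algebra.norm κ ((b : E) / (c : E)) =
        Algebra.norm κ (b : E) / Algebra.norm κ (c : E) := by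
      rw [eq_div_iff (Algebra.norm_ne_zero_iff.2 hcE), ← map_mul, div_mul_cancel₀ _ hcE]
    rw [hdiv, map_div₀, Real.log_div hnb hnc, log_norm_int v hb0 T hTb,
      log_norm_int v hc0 T hTc, ← Finset.sum_sub_distrib]
    refine Finset.sum_congr rfl fun w _ => ?_
    split_ifs
    · rw [map_div₀, Real.log_div (FinitePlace.pos_iff.2 hbE).ne' (FinitePlace.pos_iff.2 hcE).ne']
    · rw [sub_zero]
  rw [e1]
  symm
  refine Finset.sum_subset Finset.subset_union_left fun w _ hw => ?_
  split_ifs
  · rw [hS w hw, Real.log_one]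
  · rfl

theorem below_off {P : Finset ℕ} (w : FinitePlace E) (h : ∀ p ∈ P, below κ w (p : κ) = 1) :
    ∀ p ∈ P, w (p : E) = 1 := by
  intro p hp
  have h1 := h p hp
  have e1 : (p : κ) = algebraMap (𝓞 κ) κ (p : 𝓞 κ) := by simp
  have e2 : (p : E) = algebraMap (𝓞 E) E (p : 𝓞 E) := by simp
  rw [← FinitePlace.norm_embedding_eq, e1, FinitePlace.norm_eq_one_iff_notMem, below_ideal,
    Ideal.mem_comap, map_natCast] at h1
  rw [← FinitePlace.norm_embedding_eq, e2, FinitePlace.norm_eq_one_iff_notMem]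
  exact h1

end Nrm

open Nrm in
open scoped Classical in
theorem nrm : NrmStm := by
  intro κ E _ _ _ _ _ P a ha
  have fa : (Function.mulSupport fun w : FinitePlace E => w a).Finite :=
    FinitePlace.hasFiniteMulSupport ha
  set S : Finset (FinitePlace E) := fa.toFinset with hSdef
  have hS : ∀ w ∉ S, w a = 1 := by
    intro w hw
    by_contra h
    apply hw
    rw [hSdef, Set.Finite.mem_toFinset, Function.mem_mulSupport]
    exact h
  have key := fun v : FinitePlace κ => log_norm v ha S hS
  set A : Set (FinitePlace κ) := {v | ∀ p ∈ P, v (p : κ) = 1} with hA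
  set B : Set (FinitePlace E) := {w | ∀ p ∈ P, w (p : E) = 1} with hB
  have eR : ∑ᶠ w : Off P E, |Real.log (w.1 a)| = ∑ w ∈ S.filter (· ∈ B), |Real.log (w a)| := by
    have : ∑ᶠ w : Off P E, |Real.log (w.1 a)| = ∑ᶠ w ∈ B, |Real.log (w a)| :=
      finsum_set_coe_eq_finsum_mem (f := fun w : FinitePlace E => |Real.log (w a)|) B
    rw [this]
    refine finsum_mem_eq_sum_of_inter_support_eq _ ?_
    ext w
    simp only [Set.mem_inter_iff, Function.mem_support, Finset.coe_filter, Set.mem_ofPred_eq]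
    constructor
    · rintro ⟨h1, h2⟩
      refine ⟨⟨?_, h1⟩, h2⟩
      by_contra h3
      exact h2 (by rw [hS w h3, Real.log_one, abs_zero])
    · rintro ⟨⟨-, h1⟩, h2⟩
      exact ⟨h1, h2⟩
  set V : Finset (FinitePlace κ) := (S.image (below κ)).filter (· ∈ A) with hV
  have eL : ∑ᶠ v : Off P κ, |Real.log (v.1 (Algebra.norm κ a))| =
      ∑ v ∈ V, |Real.log (v (Algebra.norm κ a))| := by
    have : ∑ᶠ v : Off P κ, |Real.log (v.1 (Algebra.norm κ a))| =
        ∑ᶠ v ∈ A, |Real.log (v (Algebra.norm κ a))| :=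
      finsum_set_coe_eq_finsum_mem
        (f := fun v : FinitePlace κ => |Real.log (v (Algebra.norm κ a))|) A
    rw [this]
    refine finsum_mem_eq_sum_of_inter_support_eq _ ?_
    ext v
    simp only [Set.mem_inter_iff, Function.mem_support, hV, Finset.coe_filter, Set.mem_ofPred_eq,
      Finset.mem_image]
    constructor
    · rintro ⟨h1, h2⟩
      refine ⟨⟨?_, h1⟩, h2⟩
      by_contra h3
      apply h2
      rw [key v, Finset.sum_eq_zero, abs_zero]
      intro w hw
      rw [if_neg]
      intro h4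
      exact h3 ⟨w, hw, h4⟩
    · rintro ⟨⟨-, h1⟩, h2⟩
      exact ⟨h1, h2⟩
  rw [eL, eR]
  calc ∑ v ∈ V, |Real.log (v (Algebra.norm κ a))|
      ≤ ∑ v ∈ V, ∑ w ∈ S, if below κ w = v then |Real.log (w a)| else 0 := by
        refine Finset.sum_le_sum fun v _ => ?_
        rw [key v]
        refine (Finset.abs_sum_le_sum_abs _ _).trans (Finset.sum_le_sum fun w _ => ?_)
        split_ifs
        · exact le_rfl
        · rw [abs_zero]
    _ = ∑ w ∈ S, ∑ v ∈ V, if below κ w = v then |Real.log (w a)| else 0 := Finset.sum_comm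
    _ = ∑ w ∈ S, if below κ w ∈ V then |Real.log (w a)| else 0 := by
        refine Finset.sum_congr rfl fun w _ => ?_
        rw [Finset.sum_ite_eq]
    _ ≤ ∑ w ∈ S, if w ∈ B then |Real.log (w a)| else 0 := by
        refine Finset.sum_le_sum fun w _ => ?_
        split_ifs with h1 h2 h2
        · exact le_rfl
        · exfalso
          apply h2
          rw [hV, Finset.mem_filter] at h1
          exact below_off w h1.2
        · exact abs_nonneg _
        · exact le_rfl
    _ = ∑ w ∈ S.filter (· ∈ B), |Real.log (w a)| := by rw [Finset.sum_filter]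

end Pool.Agent.NH29.GH
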