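import Pool.Agent.NH29.GN.Stm3
import Pool.Agent.NH29.GN.Stm6
import Pool.Agent.NH8.GD.Stm

/-!
# Project GH: a height inequality for points of bounded degree, statements
-/

set_option autoImplicit false

namespace Pool.Agent.NH29.GH

open MvPolynomial Module Filter Height NumberField
open Pool.Agent.NH29.GN (Idx Mon fv val UPr HFam Sm)
open Pool.Agent.NH8.GD (pv qn)

/-! ## Normalized heights -/

/-- the normalized height of a number -/
noncomputable def nh {L : Type} [Field L] [NumberField L] (a : L) : ℝ :=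
  logHeight₁ a / (finrank ℚ L : ℝ)

/-- the normalized height of a point of projective space -/
noncomputable def nH {L : Type} [Field L] [NumberField L] {ι : Type} (x : ι → L) : ℝ :=
  logHeight x / (finrank ℚ L : ℝ)

/-- HNU: the normalized height is a height function, with constants which do not depend on the
number field -/
def HnuStm : Prop :=
  ∃ c : ℕ → ℝ, (∀ n, 0 ≤ c n) ∧ ∀ (L : Type) [Field L] [NumberField L],
    (∀ a : L, nh (-a) ≤ nh a + c 0) ∧
    (∀ a : L, nh a⁻¹ ≤ nh a + c 0) ∧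
    (∀ a b : L, nh (a + b) ≤ nh a + nh b + c 0) ∧
    (∀ a b : L, nh (a * b) ≤ nh a + nh b + c 0) ∧
    (∀ (n : ℕ) (g : L) (a : Fin n → L), g ^ n = ∑ j, a j * g ^ (j : ℕ) →
      nh g ≤ ∑ j, nh (a j) + c n) ∧
    ∀ (M : ℕ) (x : Fin (M + 1) → L) (a₀ : Fin (M + 1)), x a₀ ≠ 0 →
      nH x ≤ ∑ a, nh (x a / x a₀)

/-- EXT: the normalized height does not change under embeddings -/
def ExtStm : Prop :=
  ∀ (E L : Type) [Field E] [NumberField E] [Field L] [NumberField L] (σ : E →+* L),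
    (∀ a : E, nh (σ a) = nh a) ∧
    ∀ (M : ℕ) (x : Fin (M + 1) → E), nH (fun i => σ (x i)) = nH x

/-- EMB: a field with all the conjugates -/
def EmbStm : Prop :=
  ∀ (κ E : Type) [Field κ] [NumberField κ] [Field E] [NumberField E] [Algebra κ E],
    ∃ (L : Type) (_ : Field L) (_ : NumberField L) (_ : Algebra κ L),
      finrank κ L ≤ finrank κ E ^ finrank κ E ∧ ∃ e : Fin (finrank κ E) → (E →ₐ[κ] L),
        ∀ a : E, algebraMap κ L (Algebra.norm κ a) = ∏ l, e l a ∧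
          algebraMap κ L (Algebra.trace κ E a) = ∑ l, e l a

/-- TRC: the height of the trace -/
def TrcStm : Prop :=
  ∀ R : ℕ, ∃ C : ℝ, 0 ≤ C ∧ ∀ (κ L : Type) [Field κ] [NumberField κ] [Field L] [NumberField L]
    [Algebra κ L], finrank κ L ≤ R → ∀ a : L,
      nh ((finrank κ L : κ)⁻¹ * Algebra.trace κ L a) ≤ C * (1 + nh a)

/-! ## Norms and counting functions -/

/-- the finite places over primes not in `P` -/
abbrev Off (P : Finset ℕ) (E : Type) [Field E] [NumberField E] : Type :=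
  {w : FinitePlace E // ∀ p ∈ P, w (p : E) = 1}

/-- the counting function of the hypersurface with the coefficients `t`, of degree `e`, at the point
`x`, with respect to the places over primes not in `P` -/
noncomputable def cntP {E : Type} [Field E] [NumberField E] (P : Finset ℕ) {M e : ℕ}
    (t : Mon M e → E) (x : Fin (M + 1) → E) : ℝ :=
  ∑ᶠ w : Off P E,
    Real.log ((⨆ β, w.1 (t β)) * (⨆ a, w.1 (x a)) ^ e / w.1 (∑ β, t β * val x β.1))

/-- NRM: places and norms -/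
def NrmStm : Prop :=
  ∀ (κ E : Type) [Field κ] [NumberField κ] [Field E] [NumberField E] [Algebra κ E]
    (P : Finset ℕ) (a : E), a ≠ 0 →
    ∑ᶠ v : Off P κ, |Real.log (v.1 (Algebra.norm κ a))| ≤ ∑ᶠ w : Off P E, |Real.log (w.1 a)|

/-- CNP: the quotients of the forms and the counting functions -/
def CnpStm : Prop :=
  ∀ (E : Type) [Field E] [NumberField E] (P : Finset ℕ), (∀ p ∈ P, p ≠ 0) →
    ∀ (M q : ℕ) (d : Fin q → ℕ)
    (t : Idx M d → E) (x : Fin (M + 1) → E) (b b₀ : Fin q),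
    fv (K := E) (L := E) t x b ≠ 0 → fv (K := E) (L := E) t x b₀ ≠ 0 →
    0 ≤ cntP P (fun β => t ⟨b, β⟩) x ∧
    ∑ᶠ w : Off P E,
      |Real.log (w.1 (fv (K := E) (L := E) t x b ^ d b₀ / fv (K := E) (L := E) t x b₀ ^ d b))| ≤
      d b₀ * cntP P (fun β => t ⟨b, β⟩) x + d b * cntP P (fun β => t ⟨b₀, β⟩) x +
        2 * (d b + d b₀) * ∑ s, logHeight₁ (t s)

/-- SUP: approximation by units outside of `P` -/
def SupStm : Prop :=
  ∀ (κ : Type) [Field κ] [NumberField κ] (P : Finset ℕ), (∀ p ∈ P, p ≠ 0) →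
    ∃ (Γ : Subgroup κˣ) (A : ℝ), Γ.FG ∧ 0 ≤ A ∧ ∀ w : κˣ, ∃ γ ∈ Γ,
      logHeight₁ ((w : κ) / (γ : κˣ)) ≤
        A * (1 + ∑ᶠ v : Off P κ, |Real.log (v.1 (w : κ))|)

/-! ## Ultraproducts -/

/-- ABSD: tuples of points of large height, with a unit equation up to small elements, give a bad
tuple -/
def AbsdStm : Prop :=
  ∀ (k : Type) [Field k] [CharZero k] (I : Type) (𝒰 : Ultrafilter I) (E : I → Type)
    [∀ i, Field (E i)] [∀ i, Algebra k (E i)] (T : HFam 𝒰 E) (M q δ : ℕ)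
    (V : Set (MvPolynomial (Fin (M + 1)) k)) (d : Fin q → ℕ)
    (t : ∀ i, Idx M d → E i) (x : ∀ i, Fin δ → Fin (M + 1) → E i) (Q : MvPolynomial (Idx M d) k),
    (∀ a : k, Sm T fun i => algebraMap k (E i) a) → (∀ s, Sm T fun i => t i s) →
    (∀ i, aeval (t i) Q ≠ 0) → (∀ i l, ∀ H ∈ V, aeval (x i l) H = 0) →
    (∀ i l b, fv (t i) (x i l) b ≠ 0) → (∀ i l, x i l ≠ 0) →
    (∃ l, ∀ a₀, (∀ᶠ i in (𝒰 : Filter I), x i l a₀ ≠ 0) →
      ∃ a, ¬ Sm T fun i => x i l a / x i l a₀) →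
    (∀ b₀, ∀ S : Finset (Fin q → ℤ), S.Nonempty → ∀ c : (Fin q → ℤ) → ∀ i, E i,
      (∀ m ∈ S, Sm T (c m)) → (∀ m ∈ S, ∀ᶠ i in (𝒰 : Filter I), c m i ≠ 0) →
      (∀ᶠ i in (𝒰 : Filter I), ∑ m ∈ S, c m i * ∏ b, qn (t i) (x i) b₀ b ^ m b = 0) →
      ∃ m ∈ S, ∃ m' ∈ S, m ≠ m' ∧ Sm T fun i =>
        (∏ b, qn (t i) (x i) b₀ b ^ m b) / ∏ b, qn (t i) (x i) b₀ b ^ m' b) →
    ∃ (K' L' : Type) (_ : Field K') (_ : Field L') (_ : Algebra k K') (_ : Algebra K' L')
      (_ : IsAlgClosed K') (t' : Idx M d → K') (x' : Fin δ → Fin (M + 1) → L'),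
      aeval t' Q ≠ 0 ∧ Pool.Agent.NH8.GD.Bad k K' L' V t' x'

/-- STBD: a variant of STB, with varying fields -/
def StbdStm : Prop :=
  ∀ (k : Type) [Field k] [CharZero k] (M q δ : ℕ)
    (V : Set (MvPolynomial (Fin (M + 1)) k)) (d : Fin q → ℕ),
    (∀ Q : MvPolynomial (Idx M d) k, Q ≠ 0 → ∃ (K L : Type) (_ : Field K) (_ : Field L)
      (_ : Algebra k K) (_ : Algebra K L) (_ : IsAlgClosed K) (t : Idx M d → K)
      (x : Fin δ → Fin (M + 1) → L), aeval t Q ≠ 0 ∧ Pool.Agent.NH8.GD.Bad k K L V t x) →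
    ∃ (K' L' : Type) (_ : Field K') (_ : Field L') (_ : Algebra k K') (_ : Algebra K' L')
      (_ : IsAlgClosed K') (t : Idx M d → K') (x : Fin δ → Fin (M + 1) → L'),
      AlgebraicIndependent k t ∧ Pool.Agent.NH8.GD.Bad k K' L' V t x

end Pool.Agent.NH29.GH
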