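import Pool.Agent.NH29.GH.Stm

/-!
# Project GH: the first main theorem, statement
-/

set_option autoImplicit false

namespace Pool.Agent.NH29.GH

open MvPolynomial Module Height NumberField
open Pool.Agent.NH29.GN (Idx Mon fv val)

/-- the proximity function of the hypersurface with the coefficients `t`, of degree `e`, at the
point `x`, with respect to the infinite places and the places over primes in `P` -/
noncomputable def proxP {E : Type} [Field E] [NumberField E] (P : Finset ℕ) {M e : ℕ}
    (t : Mon M e → E) (x : Fin (M + 1) → E) : ℝ :=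
  ∑ w : InfinitePlace E, (w.mult : ℝ) *
      Real.log ((⨆ β, w (t β)) * (⨆ a, w (x a)) ^ e / w (∑ β, t β * val x β.1)) +
    ∑ᶠ w : {w : FinitePlace E // ¬ ∀ p ∈ P, w (p : E) = 1},
      Real.log ((⨆ β, w.1 (t β)) * (⨆ a, w.1 (x a)) ^ e / w.1 (∑ β, t β * val x β.1))

/-- FMT: the first main theorem -/
def FmtStm : Prop :=
  ∀ (E : Type) [Field E] [NumberField E] (P : Finset ℕ) (M e : ℕ) (t : Mon M e → E)
    (x : Fin (M + 1) → E), ∑ β, t β * val x β.1 ≠ 0 →
    proxP P t x + cntP P t x = logHeight t + e * logHeight x

end Pool.Agent.NH29.GH
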